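import Pool.Agent.Helper23.CE.Rec

/-!
# An exponential potential for the slicing recursion
-/

set_option autoImplicit false

namespace Pool.Agent.Helper23.CE

open Finset

lemma avg_exp (σ : ℕ) (hσ : 1 ≤ σ) (lam : ℝ) :
    ∑ s ∈ range σ, Real.exp (lam * ((s : ℝ) - ((σ : ℝ) - 1) / 2)) ≤
      σ * Real.exp (lam ^ 2 * ((σ : ℝ) - 1) ^ 2 / 8) := by
  have hσr : (1 : ℝ) ≤ σ := by exact_mod_cast hσ
  have h1 : ∑ s ∈ range σ, Real.exp (lam * ((s : ℝ) - ((σ : ℝ) - 1) / 2)) =
      ∑ s ∈ range σ, Real.exp (-(lam * ((s : ℝ) - ((σ : ℝ) - 1) / 2))) := by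
    rw [← sum_range_reflect]
    apply sum_congr rfl
    intro s hs
    rw [mem_range] at hs
    congr 1
    rw [Nat.cast_sub (by omega), Nat.cast_sub (by omega)]
    push_cast
    ring
  have h2 : ∑ s ∈ range σ, Real.exp (lam * ((s : ℝ) - ((σ : ℝ) - 1) / 2)) =
      ∑ s ∈ range σ, Real.cosh (lam * ((s : ℝ) - ((σ : ℝ) - 1) / 2)) := by
    have h3 : ∑ s ∈ range σ, Real.cosh (lam * ((s : ℝ) - ((σ : ℝ) - 1) / 2)) =
        (∑ s ∈ range σ, Real.exp (lam * ((s : ℝ) - ((σ : ℝ) - 1) / 2)) +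
          ∑ s ∈ range σ, Real.exp (-(lam * ((s : ℝ) - ((σ : ℝ) - 1) / 2)))) / 2 := by
      rw [← sum_add_distrib, sum_div]
      apply sum_congr rfl
      intro s _
      rw [Real.cosh_eq]
    rw [h3, ← h1]
    ring
  rw [h2]
  have h4 : ∀ s ∈ range σ, Real.cosh (lam * ((s : ℝ) - ((σ : ℝ) - 1) / 2)) ≤
      Real.exp (lam ^ 2 * ((σ : ℝ) - 1) ^ 2 / 8) := by
    intro s hs
    rw [mem_range] at hs
    refine (Real.cosh_le_exp_half_sq _).trans ?_
    apply Real.exp_le_exp.2
    have hs1 : (s : ℝ) + 1 ≤ σ := by exact_mod_cast hs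
    have hs0 : (0 : ℝ) ≤ s := by positivity
    have h5 : ((s : ℝ) - ((σ : ℝ) - 1) / 2) ^ 2 ≤ (((σ : ℝ) - 1) / 2) ^ 2 := by
      apply sq_le_sq'
      · linarith
      · linarith
    have h6 := mul_le_mul_of_nonneg_left h5 (sq_nonneg lam)
    nlinarith
  refine (sum_le_sum h4).trans ?_
  rw [sum_const, card_range, nsmul_eq_mul]

lemma sum_div_range {t : ℕ} (ht : 1 ≤ t) (σ : ℕ) (g : ℕ → ℝ) :
    ∑ s ∈ range (t * σ), g (s / t) = t * ∑ s ∈ range σ, g s := by
  induction σ with
  | zero => simp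
  | succ σ ih =>
    rw [Nat.mul_succ, sum_range_add, ih, sum_range_succ, mul_add]
    congr 1
    have : ∀ x ∈ range t, g ((t * σ + x) / t) = g σ := by
      intro x hx
      rw [mem_range] at hx
      rw [Nat.mul_add_div (by omega), Nat.div_eq_of_lt hx, add_zero]
    rw [sum_congr rfl this, sum_const, card_range, nsmul_eq_mul]

/-- the trivial bound, scaled. -/
theorem valid_triv {t : ℕ} (ht : 1 ≤ t) : ∀ D, 2 ≤ D → ∀ K, (t - 1) * (D - 1) ≤ K →
    Valid D K (1 / (t : ℝ)) := by
  have htr : (0 : ℝ) < t := by exact_mod_cast ht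
  intro D hD
  induction D, hD using Nat.le_induction with
  | base =>
    intro K hK
    apply (valid_two K).mono
    apply one_div_le_one_div_of_le htr
    have : t ≤ K + 1 := by omega
    exact_mod_cast this
  | succ D hD ih =>
    intro K hK
    have e : (t - 1) * (D + 1 - 1) = (t - 1) * (D - 1) + (t - 1) := by
      obtain ⟨e, rfl⟩ : ∃ e, D = e + 2 := ⟨D - 2, by omega⟩
      simp only [Nat.add_sub_cancel]
      have : e + 2 - 1 = e + 1 := by omega
      rw [this]; ring
    rw [e] at hK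
    apply valid_rec hD ht (by omega) (fun _ => 1 / (t : ℝ))
    · intro s hs
      apply ih
      omega
    · intro s _; positivity
    · rw [sum_const, card_range, nsmul_eq_mul]
      apply le_of_eq; field_simp
    · rw [sum_const, card_range, nsmul_eq_mul]
      apply le_of_eq; field_simp

/-- one step of the recursion for the potential. -/
theorem pot_step {t σ D K K' : ℕ} (ht : 1 ≤ t) (hσ : 1 ≤ σ) (hD : 2 ≤ D) {lam : ℝ}
    (hlam : 0 ≤ lam) {X0 M0 c : ℝ} (hX0 : X0 / D ≤ 1 / σ) (hX0' : 0 ≤ X0)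
    (hc : lam ^ 2 * ((σ : ℝ) - 1) ^ 2 / 8 ≤ c)
    (hK : t * (K + 1) + (t - 1) * (D - 1) ≤ K' + 1)
    (ih : ∀ s < σ, s ≤ K → ∀ K'', t * (K - s + 1) + (t - 1) * (D - 2) ≤ K'' + 1 →
      Valid D K'' ((X0 / D + Real.exp (-lam * ((K : ℝ) - s - M0) + c * D)) / t))
    (hM : (σ : ℝ) - 2 ≤ M0 + ((σ : ℝ) - 1) / 2) :
    Valid (D + 1) K' (((X0 + 1 / σ) / ((D : ℝ) + 1) +
      Real.exp (-lam * (K - (M0 + ((σ : ℝ) - 1) / 2)) + c * (D + 1))) / t) := by
  have htr : (0 : ℝ) < t := by exact_mod_cast ht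
  have hσr : (0 : ℝ) < σ := by exact_mod_cast hσ
  have hDr : (0 : ℝ) < D := by have : 0 < D := by omega
                               exact_mod_cast this
  have hc0 : 0 ≤ c := le_trans (by positivity) hc
  set E : ℝ := Real.exp (-lam * (K - (M0 + ((σ : ℝ) - 1) / 2)) + c * (D + 1)) with hE
  have hE0 : 0 < E := Real.exp_pos _
  have hXs : X0 ≤ D / σ := by
    rw [div_le_div_iff₀ hDr hσr] at hX0
    rw [le_div_iff₀ hσr]
    linarith
  by_cases hσK : σ ≤ K + 1
  · set b : ℕ → ℝ := fun s =>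
      (X0 / D + Real.exp (-lam * ((K : ℝ) - ((s / t : ℕ) : ℝ) - M0) + c * D)) / t with hb
    have hS1 : 1 ≤ t * σ := Nat.mul_pos ht hσ
    have hS2 : t * σ ≤ K' + 1 :=
      (Nat.mul_le_mul_left t hσK).trans (le_trans (Nat.le_add_right _ _) hK)
    have havg : (∑ s ∈ range (t * σ), b s) / ((t * σ : ℕ) : ℝ) ≤ (X0 / D + E) / t := by
      have h1 : ∑ s ∈ range (t * σ), b s = t * ∑ s ∈ range σ,
          (X0 / D + Real.exp (-lam * ((K : ℝ) - (s : ℝ) - M0) + c * D)) / t :=
        sum_div_range ht σ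
          (fun s => (X0 / D + Real.exp (-lam * ((K : ℝ) - (s : ℝ) - M0) + c * D)) / t)
      have h2 : ∑ s ∈ range σ, Real.exp (-lam * ((K : ℝ) - (s : ℝ) - M0) + c * D) ≤ σ * E := by
        have h3 : ∀ s ∈ range σ, Real.exp (-lam * ((K : ℝ) - (s : ℝ) - M0) + c * D) =
            Real.exp (-lam * (K - (M0 + ((σ : ℝ) - 1) / 2)) + c * D) *
              Real.exp (lam * ((s : ℝ) - ((σ : ℝ) - 1) / 2)) := by
          intro s _
          rw [← Real.exp_add]
          congr 1
          ring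
        rw [sum_congr rfl h3, ← mul_sum]
        refine (mul_le_mul_of_nonneg_left (avg_exp σ hσ lam) (Real.exp_pos _).le).trans ?_
        have h4 : Real.exp (-lam * (K - (M0 + ((σ : ℝ) - 1) / 2)) + c * D) *
            Real.exp (lam ^ 2 * ((σ : ℝ) - 1) ^ 2 / 8) ≤ E := by
          rw [← Real.exp_add, hE]
          apply Real.exp_le_exp.2
          linarith
        calc _ = σ * (Real.exp (-lam * (K - (M0 + ((σ : ℝ) - 1) / 2)) + c * D) *
            Real.exp (lam ^ 2 * ((σ : ℝ) - 1) ^ 2 / 8)) := by ring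
          _ ≤ _ := mul_le_mul_of_nonneg_left h4 hσr.le
      rw [h1, ← sum_div, sum_add_distrib, sum_const, card_range, nsmul_eq_mul]
      push_cast
      rw [div_le_div_iff₀ (by positivity) htr]
      have e : (t : ℝ) * ((σ * (X0 / D) + ∑ s ∈ range σ,
          Real.exp (-lam * ((K : ℝ) - (s : ℝ) - M0) + c * D)) / t) * t =
          t * (σ * (X0 / D) + ∑ s ∈ range σ,
          Real.exp (-lam * ((K : ℝ) - (s : ℝ) - M0) + c * D)) := by
        field_simp
      rw [e]
      have h5 := mul_le_mul_of_nonneg_left h2 htr.le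
      linarith
    apply valid_rec hD hS1 hS2 b
    · intro s hs
      have hs1 : s / t < σ := Nat.div_lt_of_lt_mul hs
      have hs2 : s / t ≤ K := by omega
      have hmod : t * (s / t) + s % t = s := Nat.div_add_mod s t
      have hmod2 : s % t < t := Nat.mod_lt _ ht
      have h6 := ih (s / t) hs1 hs2 (K' - s) (by
        obtain ⟨e, rfl⟩ : ∃ e, D = e + 2 := ⟨D - 2, by omega⟩
        obtain ⟨w, hw⟩ : ∃ w, K = s / t + w := ⟨K - s / t, by omega⟩
        obtain ⟨q, rfl⟩ : ∃ q, t = q + 1 := ⟨t - 1, by omega⟩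
        have e1 : e + 2 - 1 = e + 1 := by omega
        have e2 : e + 2 - 2 = e := by omega
        have e3 : q + 1 - 1 = q := by omega
        have e4 : K - s / (q + 1) + 1 = w + 1 := by omega
        rw [e1, e3] at hK
        rw [e2, e3, e4]
        have e5 : (q + 1) * (K + 1) = (q + 1) * (s / (q + 1)) + (q + 1) * (w + 1) := by
          rw [hw]; ring
        have e6 : q * (e + 1) = q * e + q := by ring
        rw [e5, e6] at hK
        omega)
      exact h6
    · intro s _
      exact div_nonneg (add_nonneg (div_nonneg hX0' hDr.le) (Real.exp_pos _).le) htr.le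
    · refine havg.trans ?_
      apply div_le_div_of_nonneg_right _ htr.le
      have : X0 / D ≤ (X0 + 1 / σ) / (D + 1) := by
        rw [div_le_div_iff₀ hDr (by positivity)]
        have e : (X0 + 1 / σ) * D = X0 * D + D / σ := by ring
        rw [e]
        linarith
      linarith
    · have h7 := mul_le_mul_of_nonneg_left havg hDr.le
      have h8 : (D : ℝ) * ((X0 / D + E) / t) + 1 / ((t * σ : ℕ) : ℝ) ≤
          ((D : ℝ) + 1) * (((X0 + 1 / σ) / ((D : ℝ) + 1) + E) / t) := by
        push_cast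
        have e1 : (D : ℝ) * ((X0 / D + E) / t) + 1 / ((t : ℝ) * σ) =
            (X0 + D * E + 1 / σ) / t := by field_simp
        have e2 : ((D : ℝ) + 1) * (((X0 + 1 / σ) / ((D : ℝ) + 1) + E) / t) =
            (X0 + 1 / σ + (D + 1) * E) / t := by field_simp
        rw [e1, e2]
        apply div_le_div_of_nonneg_right _ htr.le
        linarith
      linarith
  · have hE1 : 1 ≤ E := by
      rw [hE]
      apply Real.one_le_exp
      have hK2 : (K : ℝ) + 2 ≤ σ := by
        have : K + 2 ≤ σ := by omega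
        exact_mod_cast this
      have h1 : 0 ≤ lam * (M0 + ((σ : ℝ) - 1) / 2 - K) := mul_nonneg hlam (by linarith)
      have h2 : 0 ≤ c * ((D : ℝ) + 1) := by positivity
      nlinarith
    have h3 : Valid (D + 1) K' (1 / (t : ℝ)) := by
      apply valid_triv ht (D + 1) (by omega)
      obtain ⟨e, rfl⟩ : ∃ e, D = e + 2 := ⟨D - 2, by omega⟩
      obtain ⟨q, rfl⟩ : ∃ q, t = q + 1 := ⟨t - 1, by omega⟩
      have e1 : e + 2 - 1 = e + 1 := by omega
      have e3 : q + 1 - 1 = q := by omega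
      have e4 : e + 2 + 1 - 1 = e + 2 := by omega
      rw [e1, e3] at hK
      rw [e3, e4]
      have e5 : (q + 1) * (K + 1) = (q + 1) * K + (q + 1) := by ring
      have e6 : q * (e + 2) = q * (e + 1) + q := by ring
      rw [e5] at hK
      rw [e6]
      have : 0 ≤ (q + 1) * K := Nat.zero_le _
      omega
    apply h3.mono
    apply div_le_div_of_nonneg_right _ htr.le
    have : 0 ≤ (X0 + 1 / σ) / ((D : ℝ) + 1) := by positivity
    linarith

/-- `((D - m) / S + m / (S + 1))`. -/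
noncomputable def XX (S D m : ℕ) : ℝ := ((D : ℝ) - m) / S + m / ((S : ℝ) + 1)

theorem pot {t S : ℕ} (ht : 1 ≤ t) (hS : 1 ≤ S) {lam : ℝ} (hlam : 0 ≤ lam) :
    ∀ D, 2 ≤ D → ∀ m ≤ D, ∀ K K', t * (K + 1) + (t - 1) * (D - 2) ≤ K' + 1 →
      Valid D K' ((XX S D m / D + Real.exp (-lam * ((K : ℝ) -
        (((S : ℝ) - 1) * ((D : ℝ) - m) + S * m) / 2) + lam ^ 2 * (S : ℝ) ^ 2 / 8 * D)) / t) := by
  have htr : (0 : ℝ) < t := by exact_mod_cast ht
  have hSr : (1 : ℝ) ≤ S := by exact_mod_cast hS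
  intro D hD
  induction D, hD using Nat.le_induction with
  | base =>
    intro m hm K K' hK
    have hmr : (m : ℝ) ≤ 2 := by exact_mod_cast hm
    have hm0 : (0 : ℝ) ≤ m := by positivity
    apply (valid_two K').mono
    have h1 : 1 / ((K' : ℝ) + 1) ≤ 1 / (((K : ℝ) + 1)) / t := by
      rw [div_div]
      apply one_div_le_one_div_of_le (by positivity)
      have : t * (K + 1) ≤ K' + 1 := le_trans (Nat.le_add_right _ _) hK
      have h : (t : ℝ) * ((K : ℝ) + 1) ≤ (K' : ℝ) + 1 := by exact_mod_cast this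
      linarith
    refine h1.trans (div_le_div_of_nonneg_right ?_ htr.le)
    have hX : 1 / ((S : ℝ) + 1) ≤ XX S 2 m / (2 : ℕ) := by
      unfold XX
      have h2 : ((2 : ℕ) - (m : ℝ)) / ((S : ℝ) + 1) ≤ ((2 : ℕ) - (m : ℝ)) / S := by
        apply div_le_div_of_nonneg_left _ (by linarith) (by linarith)
        push_cast; linarith
      have h3 : ((2 : ℕ) - (m : ℝ)) / ((S : ℝ) + 1) + m / ((S : ℝ) + 1) = 2 / ((S : ℝ) + 1) := by
        rw [← add_div]; push_cast; congr 1; ring
      rw [le_div_iff₀ (by norm_num)]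
      have h4 : 1 / ((S : ℝ) + 1) * (2 : ℕ) = 2 / ((S : ℝ) + 1) := by push_cast; ring
      rw [h4]
      linarith
    by_cases hKS : S ≤ K
    · have h2 : 1 / ((K : ℝ) + 1) ≤ 1 / ((S : ℝ) + 1) := by
        apply one_div_le_one_div_of_le (by positivity)
        have : (S : ℝ) ≤ K := by exact_mod_cast hKS
        linarith
      exact (h2.trans hX).trans (le_add_of_nonneg_right (Real.exp_pos _).le)
    · have h2 : 1 ≤ Real.exp (-lam * ((K : ℝ) -
        (((S : ℝ) - 1) * (((2 : ℕ) : ℝ) - m) + S * m) / 2) +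
          lam ^ 2 * (S : ℝ) ^ 2 / 8 * (2 : ℕ)) := by
        apply Real.one_le_exp
        have hK2 : (K : ℝ) + 1 ≤ S := by
          have : K + 1 ≤ S := by omega
          exact_mod_cast this
        have h3 : 0 ≤ lam * ((((S : ℝ) - 1) * (((2 : ℕ) : ℝ) - m) + S * m) / 2 - K) := by
          apply mul_nonneg hlam
          have e : (((S : ℝ) - 1) * (((2 : ℕ) : ℝ) - m) + S * m) / 2 = S - 1 + m / 2 := by
            push_cast; ring
          rw [e]; linarith
        have h4 : 0 ≤ lam ^ 2 * (S : ℝ) ^ 2 / 8 * (2 : ℕ) := by positivity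
        linarith
      have h3 : 1 / ((K : ℝ) + 1) ≤ 1 := by
        rw [div_le_one (by positivity)]
        have : (0 : ℝ) ≤ K := by positivity
        linarith
      have h4 : 0 ≤ XX S 2 m / (2 : ℕ) := le_trans (by positivity) hX
      linarith
  | succ D hD ih =>
    intro m hm K K' hK
    have hDr : (0 : ℝ) < D := by have : 0 < D := by omega
                                 exact_mod_cast this
    have hK2 : t * (K + 1) + (t - 1) * (D - 1) ≤ K' + 1 := by
      have : D + 1 - 2 = D - 1 := by omega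
      rw [this] at hK
      exact hK
    by_cases hmD : m ≤ D
    · have hmr : (m : ℝ) ≤ D := by exact_mod_cast hmD
      have hm0 : (0 : ℝ) ≤ m := by positivity
      have h := pot_step (t := t) (σ := S) (D := D) (K := K) (K' := K') ht hS hD hlam
        (X0 := XX S D m) (M0 := (((S : ℝ) - 1) * ((D : ℝ) - m) + S * m) / 2)
        (c := lam ^ 2 * (S : ℝ) ^ 2 / 8) ?_ ?_ ?_ hK2 ?_ ?_
      · have e1 : (XX S D m + 1 / S) / ((D : ℝ) + 1) = XX S (D + 1) m / ((D + 1 : ℕ) : ℝ) := by
          unfold XX; push_cast; congr 1; ring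
        have e2 : (((S : ℝ) - 1) * ((D : ℝ) - m) + S * m) / 2 + ((S : ℝ) - 1) / 2 =
            (((S : ℝ) - 1) * (((D + 1 : ℕ) : ℝ) - m) + S * m) / 2 := by
          push_cast; ring
        rw [e1, e2] at h
        have e3 : (D : ℝ) + 1 = ((D + 1 : ℕ) : ℝ) := by push_cast; ring
        rw [e3] at h
        exact h
      · unfold XX
        rw [div_le_div_iff₀ hDr (by linarith)]
        have h2 : (m : ℝ) / ((S : ℝ) + 1) * S ≤ m := by
          rw [div_mul_eq_mul_div, div_le_iff₀ (by linarith)]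
          nlinarith
        have h3 : (((D : ℝ) - m) / S + m / ((S : ℝ) + 1)) * S = (D - m) +
            m / ((S : ℝ) + 1) * S := by
          field_simp
        rw [h3]; linarith
      · unfold XX
        have : 0 ≤ (D : ℝ) - m := by linarith
        positivity
      · have : ((S : ℝ) - 1) ^ 2 ≤ (S : ℝ) ^ 2 := by nlinarith
        have := mul_le_mul_of_nonneg_left this (sq_nonneg lam)
        linarith
      · intro s hs hsK K'' hK''
        have h2 := ih m hmD (K - s) K'' hK''
        rw [Nat.cast_sub hsK] at h2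
        exact h2
      · have h2 : (S : ℝ) - 1 ≤ (((S : ℝ) - 1) * ((D : ℝ) - m) + S * m) / 2 := by
          have hD2 : (2 : ℝ) ≤ D := by exact_mod_cast hD
          nlinarith
        linarith
    · have hmD' : m = D + 1 := by omega
      subst hmD'
      have h := pot_step (t := t) (σ := S + 1) (D := D) (K := K) (K' := K') ht (by omega) hD hlam
        (X0 := XX S D D) (M0 := (((S : ℝ) - 1) * ((D : ℝ) - D) + S * D) / 2)
        (c := lam ^ 2 * (S : ℝ) ^ 2 / 8) ?_ ?_ ?_ hK2 ?_ ?_
      · have e1 : (XX S D D + 1 / ((S + 1 : ℕ) : ℝ)) / ((D : ℝ) + 1) =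
            XX S (D + 1) (D + 1) / ((D + 1 : ℕ) : ℝ) := by
          unfold XX; push_cast; congr 1; ring
        have e2 : (((S : ℝ) - 1) * ((D : ℝ) - D) + S * D) / 2 + (((S + 1 : ℕ) : ℝ) - 1) / 2 =
            (((S : ℝ) - 1) * (((D + 1 : ℕ) : ℝ) - ((D + 1 : ℕ) : ℝ)) +
              S * ((D + 1 : ℕ) : ℝ)) / 2 := by
          push_cast; ring
        rw [e1, e2] at h
        have e3 : (D : ℝ) + 1 = ((D + 1 : ℕ) : ℝ) := by push_cast; ring
        rw [e3] at h
        exact h
      · unfold XX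
        rw [sub_self, zero_div, zero_add]
        push_cast
        apply le_of_eq
        field_simp
      · unfold XX
        rw [sub_self, zero_div, zero_add]
        positivity
      · push_cast
        have e : (S : ℝ) + 1 - 1 = S := by ring
        rw [e]
      · intro s hs hsK K'' hK''
        have h2 := ih D le_rfl (K - s) K'' hK''
        rw [Nat.cast_sub hsK] at h2
        exact h2
      · have hD2 : (2 : ℝ) ≤ D := by exact_mod_cast hD
        push_cast
        nlinarith

/-- the potential with the optimal parameter. -/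
theorem pot_opt {t S D m K K' : ℕ} (ht : 1 ≤ t) (hS : 1 ≤ S) (hD : 2 ≤ D) (hm : m ≤ D)
    (hK' : t * (K + 1) + (t - 1) * (D - 2) ≤ K' + 1) {r : ℝ} (hr : 0 ≤ r)
    (hK : (S : ℝ) * D + m + r ≤ 2 * K + D) :
    Valid D K' ((XX S D m / D + Real.exp (-(r ^ 2) / (2 * (S : ℝ) ^ 2 * D))) / t) := by
  have htr : (0 : ℝ) < t := by exact_mod_cast ht
  have hSr : (0 : ℝ) < S := by exact_mod_cast hS
  have hDr : (0 : ℝ) < D := by have : 0 < D := by omega
                               exact_mod_cast this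
  have h := pot ht hS (lam := 2 * r / ((S : ℝ) ^ 2 * D)) (by positivity) D hD m hm K K' hK'
  apply h.mono
  apply div_le_div_of_nonneg_right _ htr.le
  apply add_le_add le_rfl
  apply Real.exp_le_exp.2
  have h1 : r / 2 ≤ (K : ℝ) - (((S : ℝ) - 1) * ((D : ℝ) - m) + S * m) / 2 := by
    nlinarith
  have h2 : 2 * r / ((S : ℝ) ^ 2 * D) * (r / 2) ≤ 2 * r / ((S : ℝ) ^ 2 * D) *
      ((K : ℝ) - (((S : ℝ) - 1) * ((D : ℝ) - m) + S * m) / 2) :=
    mul_le_mul_of_nonneg_left h1 (by positivity)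
  have h3 : (2 * r / ((S : ℝ) ^ 2 * D)) ^ 2 * (S : ℝ) ^ 2 / 8 * D -
      2 * r / ((S : ℝ) ^ 2 * D) * (r / 2) = -(r ^ 2) / (2 * (S : ℝ) ^ 2 * D) := by
    field_simp
    ring
  linarith

end Pool.Agent.Helper23.CE
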