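import Pool.Agent.Helper23.CE.Two
import Pool.Agent.Helper23.CE.Pot

/-!
# Solution of the recursion with two slices: bounded reserve
-/

set_option autoImplicit false

namespace Pool.Agent.Helper23.CE

open Finset

/-- a simple bound. -/
theorem valid_simple : ∀ D, 2 ≤ D → ∀ K, Valid D K (((D : ℝ) - 1) / ((K : ℝ) + 1)) := by
  intro D hD
  induction D, hD using Nat.le_induction with
  | base =>
    intro K
    apply (valid_two K).mono
    apply le_of_eq
    norm_num
  | succ D hD ih =>
    intro K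
    set S : ℕ := (K + D) / D with hS
    have hD0 : 0 < D := by omega
    have hS1 : 1 ≤ S := by
      rw [hS, Nat.le_div_iff_mul_le hD0]; omega
    have hS2 : S * D ≤ K + D := Nat.div_mul_le_self _ _
    have hS3 : K + D < (S + 1) * D := by
      have h2 := Nat.div_add_mod (K + D) D
      have h3 := Nat.mod_lt (K + D) hD0
      rw [← hS] at h2
      rw [add_mul, one_mul, mul_comm S]
      omega
    have hSK : S ≤ K + 1 := by
      by_contra hcon
      push Not at hcon
      have : (K + 2) * D ≤ S * D := Nat.mul_le_mul_right D hcon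
      have h4 : (K + 2) * D ≤ K + D := this.trans hS2
      have h5 : K * D + 2 * D ≤ K + D := by rw [← add_mul]; exact h4
      have h6 : K ≤ K * D := Nat.le_mul_of_pos_right K hD0
      omega
    have hDr : (2 : ℝ) ≤ D := by exact_mod_cast hD
    have hSr : (1 : ℝ) ≤ S := by exact_mod_cast hS1
    have hK0 : (0 : ℝ) ≤ K := by positivity
    have h1 : (S : ℝ) * D ≤ K + D := by exact_mod_cast hS2
    have h2 : (K : ℝ) + D < (S + 1) * D := by exact_mod_cast hS3
    have h3 : (K : ℝ) + 1 ≤ S * D := by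
      have : K + 1 ≤ S * D := by
        have : K + D < S * D + D := by rw [add_mul, one_mul] at hS3; exact hS3
        omega
      exact_mod_cast this
    have hSKr : (S : ℝ) ≤ K + 1 := by exact_mod_cast hSK
    have hpos : (0 : ℝ) < (K : ℝ) - S + 2 := by linarith
    set β : ℝ := ((D : ℝ) - 1) / ((K : ℝ) - S + 2) with hβ
    have hβ0 : 0 ≤ β := div_nonneg (by linarith) hpos.le
    have hβ1 : β ≤ (D : ℝ) / ((K : ℝ) + 1) := by
      rw [hβ, div_le_div_iff₀ hpos (by positivity)]
      nlinarith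
    have hs1 : 1 / (S : ℝ) ≤ (D : ℝ) / ((K : ℝ) + 1) := by
      rw [div_le_div_iff₀ (by linarith) (by positivity)]
      linarith
    apply valid_rec hD hS1 hSK (fun _ => β)
    · intro s hs
      have h4 := (ih (K - (S - 1))).monoK (show K - (S - 1) ≤ K - s by omega)
      apply h4.mono
      rw [hβ]
      apply le_of_eq
      congr 1
      rw [Nat.cast_sub (by omega), Nat.cast_sub (by omega)]
      push_cast
      ring
    · intro s _; exact hβ0
    · rw [sum_const, card_range, nsmul_eq_mul]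
      push_cast
      have e : (S : ℝ) * β / S = β := by field_simp
      rw [e]
      have e2 : (D : ℝ) + 1 - 1 = D := by ring
      rw [e2]
      exact hβ1
    · rw [sum_const, card_range, nsmul_eq_mul]
      push_cast
      have e : (S : ℝ) * β / S = β := by field_simp
      rw [e]
      have e2 : (D : ℝ) + 1 - 1 = D := by ring
      rw [e2]
      have h5 := mul_le_mul_of_nonneg_left hβ1 (show (0 : ℝ) ≤ D by linarith)
      linarith

/-- bounded reserve, strong form. -/
theorem flat_strong {σ : ℕ} (hσ : 2 ≤ σ) : ∀ D, 2 * σ ≤ D → ∀ K,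
    σ * D + 6 * σ ^ 2 + 2 * σ ≤ 2 * K + D →
    Valid D K (((D : ℝ) + 1 - σ) / (σ * D)) := by
  intro D
  induction D using Nat.strong_induction_on with
  | _ D ih =>
    intro hD K hK
    have hσr : (2 : ℝ) ≤ σ := by exact_mod_cast hσ
    have hDr : (2 : ℝ) * σ ≤ D := by exact_mod_cast hD
    have hKr : (σ : ℝ) * D + 6 * σ ^ 2 + 2 * σ ≤ 2 * K + D := by exact_mod_cast hK
    by_cases hDs : D < 2 * σ + 2
    · apply (valid_simple D (by omega) K).mono
      have hK0 : (0 : ℝ) ≤ K := by positivity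
      rw [div_le_div_iff₀ (by positivity) (by nlinarith)]
      rcases (show D = 2 * σ ∨ D = 2 * σ + 1 by omega) with h | h
      · have hd : (D : ℝ) = 2 * σ := by rw [h]; push_cast; ring
        rw [hd] at hKr ⊢
        nlinarith
      · have hd : (D : ℝ) = 2 * σ + 1 := by rw [h]; push_cast; ring
        rw [hd] at hKr ⊢
        nlinarith
    · obtain ⟨D', rfl⟩ : ∃ D', D = D' + 2 := ⟨D - 2, by omega⟩
      have hD' : 2 * σ ≤ D' := by omega
      have hD'r : (2 : ℝ) * σ ≤ D' := by exact_mod_cast hD'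
      have hK1 : σ ≤ K + 1 := by nlinarith
      have h := ih D' (by omega) hD' (K - (σ - 1)) (by
        have e : σ * (D' + 2) = σ * D' + 2 * σ := by ring
        rw [e] at hK
        omega)
      have hM0 : (0 : ℝ) ≤ ((σ : ℝ) - 1) / (σ * D') := by
        apply div_nonneg (by linarith)
        nlinarith
      have hσ0 : (σ : ℝ) ≠ 0 := by linarith
      have hD0 : (D' : ℝ) ≠ 0 := by linarith
      have hD2 : (D' : ℝ) + 2 ≠ 0 := by linarith
      apply valid_pair (by omega) (by omega) hK1 _ h hM0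
      · apply le_of_eq
        field_simp
        ring
      · apply le_of_eq
        field_simp
        ring
      · apply le_of_eq
        push_cast
        field_simp
        ring
      · apply div_nonneg (by linarith)
        nlinarith

/-- bounded reserve, weak form. -/
theorem flat_weak {σ : ℕ} (hσ : 1 ≤ σ) : ∀ D, 2 ≤ D → ∀ K,
    σ * D + 6 * σ ^ 2 + 2 * σ ≤ 2 * K + D → Valid D K (1 / (σ : ℝ)) := by
  intro D hD K hK
  have hσr : (1 : ℝ) ≤ σ := by exact_mod_cast hσ
  have hDr : (2 : ℝ) ≤ D := by exact_mod_cast hD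
  rcases Nat.lt_or_ge σ 2 with h1 | h1
  · have h2 : σ = 1 := by omega
    subst h2
    exact valid_triv le_rfl D hD K (by simp)
  · by_cases h2 : 2 * σ ≤ D
    · apply (flat_strong h1 D h2 K hK).mono
      rw [div_le_div_iff₀ (by nlinarith) (by linarith)]
      nlinarith
    · have hKr : (σ : ℝ) * D + 6 * σ ^ 2 + 2 * σ ≤ 2 * K + D := by exact_mod_cast hK
      apply (valid_simple D hD K).mono
      have hK0 : (0 : ℝ) ≤ K := by positivity
      have h3 : (D : ℝ) ≤ 2 * σ := by
        have : D ≤ 2 * σ := by omega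
        exact_mod_cast this
      rw [div_le_div_iff₀ (by positivity) (by linarith)]
      nlinarith

/-- the two phases. -/
theorem two_phases {S m : ℕ} (hS : 1 ≤ S) (hm : 2 * (S + 1) ≤ m) : ∀ l K,
    S * (m + 2 * l) + m + 6 * (S + 1) ^ 2 + 2 * (S + 1) ≤ 2 * K + (m + 2 * l) →
    Valid (m + 2 * l) K (((2 * (l : ℝ)) / S + ((m : ℝ) - S) / ((S : ℝ) + 1)) /
      ((m : ℝ) + 2 * l)) := by
  have hSr : (1 : ℝ) ≤ S := by exact_mod_cast hS
  have hmr : (2 : ℝ) * (S + 1) ≤ m := by exact_mod_cast hm
  intro l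
  induction l with
  | zero =>
    intro K hK
    have h := flat_strong (σ := S + 1) (by omega) m hm K (by
      have e : (S + 1) * m = S * m + m := by ring
      rw [e]
      simpa using hK)
    have h' : Valid (m + 2 * 0) K (((m : ℝ) + 1 - ((S + 1 : ℕ) : ℝ)) /
        (((S + 1 : ℕ) : ℝ) * m)) := h
    apply h'.mono
    apply le_of_eq
    push_cast
    have hm0 : (m : ℝ) ≠ 0 := by linarith
    have hS0 : (S : ℝ) + 1 ≠ 0 := by linarith
    field_simp
    ring
  | succ l ih =>
    intro K hK
    have hK1 : S ≤ K + 1 := by nlinarith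
    have h := ih (K - (S - 1)) (by
      have e : S * (m + 2 * (l + 1)) = S * (m + 2 * l) + 2 * S := by ring
      rw [e] at hK
      omega)
    have hD3 : 3 ≤ m + 2 * l := by omega
    set D' : ℝ := (m : ℝ) + 2 * l with hD'
    have hD'c : ((m + 2 * l : ℕ) : ℝ) = D' := by rw [hD']; push_cast; ring
    have hl0 : (0 : ℝ) ≤ l := by positivity
    have hD'0 : 0 < D' := by rw [hD']; linarith
    have e0 : m + 2 * (l + 1) = (m + 2 * l) + 2 := by ring
    rw [e0]
    have hM0 : (0 : ℝ) ≤ ((m : ℝ) + S ^ 2) / (S * (S + 1) * D') := by positivity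
    have hS0 : (S : ℝ) ≠ 0 := by linarith
    have hS1 : (S : ℝ) + 1 ≠ 0 := by linarith
    have hb : 1 / (S : ℝ) - ((2 * (l : ℝ)) / S + ((m : ℝ) - S) / ((S : ℝ) + 1)) / D' =
        ((m : ℝ) + S ^ 2) / (S * (S + 1) * D') := by
      have : (2 : ℝ) * l = D' - m := by rw [hD']; ring
      rw [this]
      field_simp
      ring
    apply valid_pair hD3 hS hK1 _ h hM0 hb.le
    · rw [hD'c]
      have h1 : 1 - ((2 * (l : ℝ)) / S + ((m : ℝ) - S) / ((S : ℝ) + 1)) / D' =
          1 - 1 / (S : ℝ) + ((m : ℝ) + S ^ 2) / (S * (S + 1) * D') := by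
        rw [← hb]; ring
      rw [h1]
      have h2 : 1 - 1 / (S : ℝ) ≤ D' * (((m : ℝ) + S ^ 2) / (S * (S + 1) * D')) := by
        have e1 : D' * (((m : ℝ) + S ^ 2) / (S * (S + 1) * D')) =
            ((m : ℝ) + S ^ 2) / (S * (S + 1)) := by field_simp
        rw [e1]
        have e2 : 1 - 1 / (S : ℝ) = ((S : ℝ) ^ 2 - 1) / (S * (S + 1)) := by
          field_simp
          ring
        rw [e2]
        apply div_le_div_of_nonneg_right _ (by positivity)
        linarith
      linarith
    · rw [hD'c]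
      apply le_of_eq
      have : ((l + 1 : ℕ) : ℝ) = l + 1 := by push_cast; ring
      rw [this]
      have e1 : (m : ℝ) + 2 * ((l : ℝ) + 1) = D' + 2 := by rw [hD']; ring
      rw [e1]
      rw [← hb]
      have hD2 : D' + 2 ≠ 0 := by linarith
      field_simp
      ring
    · apply div_nonneg _ hD'0.le
      apply add_nonneg (by positivity)
      apply div_nonneg _ (by linarith)
      linarith

/-- the reserve. -/
def Rs (J : ℕ) : ℕ := 6 * J ^ 2 + 16 * J + 11

/-- lower bound with bounded reserve. -/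
theorem valid_reserve {D K S m0 : ℕ} (hD : 2 ≤ D) (hS : 1 ≤ S) (hm0 : m0 ≤ D)
    (h : S * D + m0 + Rs S ≤ 2 * K + D) : Valid D K (XX S D m0 / D) := by
  have hSr : (1 : ℝ) ≤ S := by exact_mod_cast hS
  have hDr : (2 : ℝ) ≤ D := by exact_mod_cast hD
  have hm0r : (m0 : ℝ) ≤ D := by exact_mod_cast hm0
  have hm00 : (0 : ℝ) ≤ m0 := by positivity
  unfold Rs at h
  obtain ⟨m, hm1, hm2, hm3, hm4⟩ : ∃ m, m0 ≤ m ∧ 2 * (S + 1) ≤ m ∧ m ≤ m0 + 2 * (S + 1) + 1 ∧
      m % 2 = D % 2 := by
    by_cases hp : (m0 + 2 * (S + 1)) % 2 = D % 2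
    · exact ⟨m0 + 2 * (S + 1), by omega, by omega, by omega, hp⟩
    · exact ⟨m0 + 2 * (S + 1) + 1, by omega, by omega, by omega, by omega⟩
  by_cases hmD : m ≤ D
  · obtain ⟨l, hl⟩ : ∃ l, D = m + 2 * l := ⟨(D - m) / 2, by omega⟩
    have h1 := two_phases hS hm2 l K (by
      rw [← hl]
      nlinarith)
    have hl' : (D : ℝ) = m + 2 * l := by rw [hl]; push_cast; ring
    rw [← hl'] at h1
    rw [← hl] at h1
    apply h1.mono
    apply div_le_div_of_nonneg_right _ (by linarith)
    unfold XX
    have hl2 : (2 : ℝ) * l = D - m := by linarith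
    rw [hl2]
    have hmr : (m0 : ℝ) ≤ m := by exact_mod_cast hm1
    have e1 : ((D : ℝ) - m0) / S + m0 / ((S : ℝ) + 1) - (((D : ℝ) - m) / S +
        ((m : ℝ) - S) / ((S : ℝ) + 1)) = ((m : ℝ) - m0 + S ^ 2) / (S * (S + 1)) := by
      have hS0 : (S : ℝ) ≠ 0 := by linarith
      have hS1 : (S : ℝ) + 1 ≠ 0 := by linarith
      field_simp
      ring
    have e2 : 0 ≤ ((m : ℝ) - m0 + S ^ 2) / (S * (S + 1)) := by
      apply div_nonneg _ (by positivity)
      have : (0 : ℝ) ≤ (S : ℝ) ^ 2 := by positivity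
      linarith
    linarith
  · have h1 := flat_weak (σ := S + 1) (by omega) D hD K (by
      have : D ≤ m0 + 2 * S + 2 := by omega
      nlinarith)
    apply h1.mono
    unfold XX
    rw [le_div_iff₀ (by linarith)]
    push_cast
    have e1 : ((D : ℝ) - m0) / ((S : ℝ) + 1) ≤ ((D : ℝ) - m0) / S :=
      div_le_div_of_nonneg_left (by linarith) (by linarith) (by linarith)
    have e2 : 1 / ((S : ℝ) + 1) * D = ((D : ℝ) - m0) / ((S : ℝ) + 1) + m0 / ((S : ℝ) + 1) := by
      ring
    rw [e2]
    linarith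

end Pool.Agent.Helper23.CE
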