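import Mathlib

/-!
# The conjectured rates and the error term
-/

namespace Pool.Agent.Helper23.CE

/-- `ind d k = 1 + ⌊2(k-1)/(d+1)⌋`. -/
def ind (d k : ℕ) : ℕ := 1 + 2 * (k - 1) / (d + 1)

/-- the conjectured value of `C_{d,k}`: `(d+1) J (J+1) / (2 ((d+1) J - (k-1)))` with
`J = ind d k`. -/
noncomputable def rate (d k : ℕ) : ℝ :=
  ((d : ℝ) + 1) * ind d k * (ind d k + 1) / (2 * (((d : ℝ) + 1) * ind d k - ((k : ℝ) - 1)))

/-- `err d = √(log (d+1) / (d+1))`. -/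
noncomputable def err (d : ℕ) : ℝ := Real.sqrt (Real.log ((d : ℝ) + 1) / ((d : ℝ) + 1))

end Pool.Agent.Helper23.CE
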