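import Pool.Agent.Helper23.CE.Defs

/-!
# The relative error of the bounds
-/

namespace Pool.Agent.Helper23.CE

/-- `errm d k` is the smaller of `64 ((k-1)/(d+1) + 2) / (d+1)` and
`20 √(log (d+1) / (d+1))`. -/
noncomputable def errm (d k : ℕ) : ℝ :=
  min (64 * (((k : ℝ) - 1) / ((d : ℝ) + 1) + 2) / ((d : ℝ) + 1)) (20 * err d)

end Pool.Agent.Helper23.CE
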