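import Pool.Agent.Helper23.CE.Pot

/-!
# The numerical part
-/

set_option autoImplicit false

namespace Pool.Agent.Helper23.CE

open Finset

/-- the line through `(S, 1/S)` and `(S+1, 1/(S+1))`. -/
noncomputable def Ln (S z : ℝ) : ℝ := (2 * S + 1 - z) / (S * (S + 1))

lemma XX_div {S D m : ℕ} (hS : 1 ≤ S) (hD : 1 ≤ D) :
    XX S D m / D = Ln S (((S : ℝ) * D + m) / D) := by
  have hSr : (0 : ℝ) < S := by exact_mod_cast hS
  have hDr : (0 : ℝ) < D := by exact_mod_cast hD
  unfold XX Ln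
  field_simp
  ring

lemma Ln_le {S S' : ℕ} (hS' : 1 ≤ S') (h : S' ≤ S) {z : ℝ} (hz : (S : ℝ) ≤ z) :
    Ln S' z ≤ Ln S z := by
  have h1 : (1 : ℝ) ≤ S' := by exact_mod_cast hS'
  have h2 : (S' : ℝ) ≤ S := by exact_mod_cast h
  unfold Ln
  rw [div_le_div_iff₀ (by positivity) (by nlinarith)]
  rcases Nat.eq_or_lt_of_le h with h3 | h3
  · rw [h3]
  · have h4 : (S' : ℝ) + 1 ≤ S := by exact_mod_cast h3
    have key : (2 * (S : ℝ) + 1 - z) * (S' * (S' + 1)) - (2 * (S' : ℝ) + 1 - z) * (S * (S + 1)) =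
        (S - S') * (z * (S + S' + 1) - (2 * S * S' + S + S' + 1)) := by ring
    have h5 : 0 ≤ z * ((S : ℝ) + S' + 1) - (2 * S * S' + S + S' + 1) := by
      have h6 : (S : ℝ) * (S + S' + 1) ≤ z * (S + S' + 1) :=
        mul_le_mul_of_nonneg_right hz (by positivity)
      nlinarith
    have h6 : 0 ≤ ((S : ℝ) - S') * (z * (S + S' + 1) - (2 * S * S' + S + S' + 1)) :=
      mul_nonneg (by linarith) h5
    linarith

lemma Ln_ge {S : ℝ} (hS : 1 ≤ S) {z : ℝ} (hz : S ≤ z) (hz' : z ≤ S + 1) :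
    1 / z ≤ Ln S z := by
  unfold Ln
  rw [div_le_div_iff₀ (by linarith) (by nlinarith)]
  nlinarith [mul_nonneg (sub_nonneg.2 hz) (sub_nonneg.2 hz')]

lemma exp_small {D : ℕ} (hD : 3 ≤ D) {η : ℝ} (hη : η = Real.sqrt (Real.log D / D)) {S u r : ℝ}
    (hS : 0 < S) (hu : S ≤ u) (hr : 3 * u * (η * D) ≤ r) :
    Real.exp (-(r ^ 2) / (2 * S ^ 2 * D)) ≤ 1 / (D : ℝ) ^ 4 := by
  have hDr : (0 : ℝ) < D := by
    have : 0 < D := by omega
    exact_mod_cast this
  have hlog : 0 ≤ Real.log D := Real.log_natCast_nonneg D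
  have hη0 : 0 ≤ η := by rw [hη]; positivity
  have hη2 : η ^ 2 * D = Real.log D := by
    rw [hη, Real.sq_sqrt (by positivity)]
    field_simp
  have h1 : 4 * Real.log D ≤ r ^ 2 / (2 * S ^ 2 * D) := by
    rw [le_div_iff₀ (by positivity)]
    have h2 : (3 * u * (η * D)) ^ 2 ≤ r ^ 2 := by
      apply pow_le_pow_left₀ _ hr
      have : 0 ≤ u := by linarith
      positivity
    have h3 : (3 * u * (η * D)) ^ 2 = 9 * u ^ 2 * D * Real.log D := by
      rw [← hη2]; ring
    rw [h3] at h2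
    have h4 : S ^ 2 ≤ u ^ 2 := pow_le_pow_left₀ hS.le hu 2
    have h5 : S ^ 2 * (D * Real.log D) ≤ u ^ 2 * (D * Real.log D) :=
      mul_le_mul_of_nonneg_right h4 (by positivity)
    have h6 : 0 ≤ u ^ 2 * (D * Real.log D) := by positivity
    linarith
  have h2 : Real.exp (-(r ^ 2) / (2 * S ^ 2 * D)) ≤ Real.exp (-(4 * Real.log D)) := by
    apply Real.exp_le_exp.2
    rw [neg_div]
    linarith
  refine h2.trans (le_of_eq ?_)
  rw [Real.exp_neg, ← one_div]
  congr 1
  rw [show (4 : ℝ) * Real.log D = ((4 : ℕ) : ℝ) * Real.log D by norm_num, Real.exp_nat_mul,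
    Real.exp_log hDr]

/-- the case `2K + D ≤ D^4`. -/
theorem num_direct {D K : ℕ} (hD : 3 ≤ D) {η : ℝ} (hη : η = Real.sqrt (Real.log D / D))
    (hη20 : η ≤ 1 / 20) (hinv : 1 / (D : ℝ) ≤ η / 20) (hu : (2 * K + D : ℝ) ≤ (D : ℝ) ^ 4) :
    Valid D K (Ln ((2 * K + D) / D : ℕ) ((2 * K + D : ℝ) / D) * (1 + 10 * η)) := by
  have hDr : (3 : ℝ) ≤ D := by exact_mod_cast hD
  have hD0 : (0 : ℝ) < D := by linarith
  have hη0 : 0 ≤ η := by rw [hη]; positivity
  set u : ℝ := (2 * K + D : ℝ) / D with hudef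
  have huD : u * D = 2 * K + D := by rw [hudef]; field_simp
  have hu1 : 1 ≤ u := by
    rw [hudef, le_div_iff₀ hD0]
    have : (0 : ℝ) ≤ K := by positivity
    linarith
  set J : ℕ := (2 * K + D) / D with hJ
  have hJ1 : 1 ≤ J := by
    rw [hJ, Nat.le_div_iff_mul_le (by omega)]
    omega
  have hJu : (J : ℝ) ≤ u := by
    rw [hudef, le_div_iff₀ hD0]
    have : J * D ≤ 2 * K + D := Nat.div_mul_le_self _ _
    exact_mod_cast this
  have hJu' : u ≤ (J : ℝ) + 1 := by
    rw [hudef, div_le_iff₀ hD0]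
    have : 2 * K + D < (J + 1) * D := by
      rw [hJ]
      have h2 := Nat.div_add_mod (2 * K + D) D
      have h3 := Nat.mod_lt (2 * K + D) (show 0 < D by omega)
      nlinarith
    have h : ((2 * K + D : ℕ) : ℝ) < (((J + 1) * D : ℕ) : ℝ) := by exact_mod_cast this
    push_cast at h
    linarith
  have hv : 1 / u ≤ Ln J u := Ln_ge (by exact_mod_cast hJ1) hJu hJu'
  have hv0 : 0 < Ln J u := lt_of_lt_of_le (by positivity) hv
  set r : ℕ := ⌈3 * u * (η * D)⌉₊ with hr
  have hr1 : 3 * u * (η * D) ≤ r := Nat.le_ceil _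
  have hr2 : (r : ℝ) ≤ 3 * u * (η * D) + 1 := (Nat.ceil_lt_add_one (by positivity)).le
  have hr3 : (r : ℝ) / D ≤ 61 / 20 * (η * u) := by
    have h1 : (r : ℝ) / D ≤ (3 * u * (η * D) + 1) / D := div_le_div_of_nonneg_right hr2 hD0.le
    have h2 : (3 * u * (η * D) + 1) / D = 3 * u * η + 1 / D := by field_simp
    rw [h2] at h1
    have h3 : η / 20 ≤ η / 20 * u := le_mul_of_one_le_right (by positivity) hu1
    linarith
  by_cases hN : D + r ≤ 2 * K + D
  · set N' : ℕ := 2 * K + D - r with hN'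
    set S : ℕ := N' / D with hS
    set m : ℕ := N' % D with hm
    have hS1 : 1 ≤ S := by
      rw [hS, Nat.le_div_iff_mul_le (by omega)]
      omega
    have hmD : m < D := Nat.mod_lt _ (by omega)
    have hSD : S * D + m = N' := by rw [hS, hm]; exact Nat.div_add_mod' N' D
    have hSJ : S ≤ J := Nat.div_le_div_right (by omega)
    have hreal : (S : ℝ) * D + m + r = 2 * K + D := by
      have : S * D + m + r = 2 * K + D := by omega
      exact_mod_cast this
    have hSr : (1 : ℝ) ≤ S := by exact_mod_cast hS1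
    have hmr : (m : ℝ) ≤ D := by exact_mod_cast hmD.le
    set z : ℝ := ((S : ℝ) * D + m) / D with hz
    have hzD : z * D = (S : ℝ) * D + m := by rw [hz]; field_simp
    have hzu : z = u - r / D := by
      rw [hz, hudef, ← sub_div]
      congr 1
      linarith
    have hz1 : z ≤ (S : ℝ) + 1 := by
      rw [hz, div_le_iff₀ hD0]; linarith
    have hz2 : z ≤ u := by
      rw [hzu]
      have : 0 ≤ (r : ℝ) / D := by positivity
      linarith
    have hz3 : (S : ℝ) ≤ z := by
      rw [hz, le_div_iff₀ hD0]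
      have : (0 : ℝ) ≤ m := by positivity
      linarith
    have h := pot_opt (t := 1) (S := S) (D := D) (m := m) (K := K) (K' := K) le_rfl hS1
      (by omega) hmD.le (by simp) (r := r) (by positivity) hreal.le
    apply h.mono
    rw [XX_div hS1 (by omega), ← hz]
    simp only [Nat.cast_one, div_one]
    have hE := exp_small hD hη (S := S) (u := u) (r := r) (by linarith) (by linarith) hr1
    have hu4 : 1 / (D : ℝ) ^ 4 ≤ 1 / D * Ln J u := by
      have h1 : 1 / (D : ℝ) * (1 / u) ≤ 1 / D * Ln J u :=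
        mul_le_mul_of_nonneg_left hv (by positivity)
      refine le_trans ?_ h1
      have h0 : 1 / (D : ℝ) * (1 / u) = 1 / (u * D) := by field_simp
      rw [h0]
      apply one_div_le_one_div_of_le (by positivity)
      rw [huD]
      exact hu
    have hb : Ln S z ≤ Ln J u + (r / D) / (S * (S + 1)) := by
      have h1 : Ln S z = Ln S u + (r / D) / (S * (S + 1)) := by
        unfold Ln
        rw [← add_div, hzu]
        congr 1
        ring
      rw [h1]
      have h2 := Ln_le hS1 hSJ hJu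
      linarith
    have hc : (r / D : ℝ) / (S * (S + 1)) ≤ 9 * η * Ln J u := by
      have h1 : 9 * η * (1 / u) ≤ 9 * η * Ln J u :=
        mul_le_mul_of_nonneg_left hv (by positivity)
      refine le_trans ?_ h1
      rw [div_le_iff₀ (by positivity)]
      have h2 : 339 / 400 * u ≤ z := by
        rw [hzu]
        have : η * u ≤ 1 / 20 * u := mul_le_mul_of_nonneg_right hη20 (by linarith)
        linarith
      have h3 : (339 / 400 * u) ^ 2 ≤ ((S : ℝ) + 1) ^ 2 :=
        pow_le_pow_left₀ (by linarith) (h2.trans hz1) 2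
      have h4 : 61 / 20 * (η * u) ≤ 9 * η * (1 / u) * (S * (S + 1)) := by
        have h5 : 9 * η * (1 / u) * ((S : ℝ) * (S + 1)) = η * u * (9 * (S * (S + 1)) / u ^ 2) := by
          field_simp
        rw [h5, mul_comm (61 / 20 : ℝ)]
        apply mul_le_mul_of_nonneg_left _ (by positivity)
        rw [le_div_iff₀ (by positivity)]
        nlinarith
      linarith
    have hd : 1 / (D : ℝ) * Ln J u ≤ η / 20 * Ln J u := mul_le_mul_of_nonneg_right hinv hv0.le
    have he : 0 ≤ η * Ln J u := by positivity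
    linarith
  · have h1 : (2 : ℝ) * K < r := by
      have : 2 * K < r := by omega
      exact_mod_cast this
    have h2 : (u - 1) * D < r := by
      have : (u - 1) * D = 2 * K := by rw [sub_mul, huD]; ring
      rw [this]; exact h1
    have h3 : u - 1 < 61 / 20 * (η * u) := by
      refine lt_of_lt_of_le ?_ hr3
      rw [lt_div_iff₀ hD0]; exact h2
    have h4 : η * u ≤ 1 / 20 * u := mul_le_mul_of_nonneg_right hη20 (by linarith)
    have h5 : u ≤ 6 / 5 := by linarith
    have h6 : u - 1 ≤ 4 * η := by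
      have : η * u ≤ η * (6 / 5) := mul_le_mul_of_nonneg_left h5 hη0
      linarith
    have hJ' : J = 1 := by
      have h7 : (J : ℝ) < 2 := by linarith
      have h8 : J < 2 := by exact_mod_cast h7
      omega
    have h := valid_triv (t := 1) le_rfl D (by omega) K (by simp)
    apply h.mono
    rw [hJ']
    unfold Ln
    simp only [Nat.cast_one, div_one]
    have h9 : (1 - 2 * η) ≤ (2 * 1 + 1 - u) / (1 * (1 + 1)) := by
      rw [le_div_iff₀ (by norm_num)]
      linarith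
    have h10 : (1 - 2 * η) * (1 + 10 * η) ≤ (2 * 1 + 1 - u) / (1 * (1 + 1)) * (1 + 10 * η) :=
      mul_le_mul_of_nonneg_right h9 (by positivity)
    have h11 : 1 ≤ (1 - 2 * η) * (1 + 10 * η) := by nlinarith
    linarith

/-- the case `D^4 ≤ 2K + D`. -/
theorem num_large {D K : ℕ} (hD : 3 ≤ D) {η : ℝ} (hη : η = Real.sqrt (Real.log D / D))
    (hη20 : η ≤ 1 / 20) (hinv : 1 / (D : ℝ) ≤ η / 20) (hu : (D : ℝ) ^ 4 ≤ 2 * K + D) :
    Valid D K (1 / ((2 * K + D : ℝ) / D) * (1 + 10 * η)) := by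
  have hDr : (3 : ℝ) ≤ D := by exact_mod_cast hD
  have hD0 : (0 : ℝ) < D := by linarith
  have hη0 : 0 ≤ η := by rw [hη]; positivity
  set r : ℝ := 3 * D * (η * D) with hr
  have hr0 : 0 ≤ r := by rw [hr]; positivity
  set K0 : ℕ := ⌈((D : ℝ) ^ 2 - D + r) / 2⌉₊ with hK0
  have hKa : ((D : ℝ) ^ 2 - D + r) / 2 ≤ K0 := Nat.le_ceil _
  have hKb : (K0 : ℝ) ≤ ((D : ℝ) ^ 2 - D + r) / 2 + 1 :=
    (Nat.ceil_lt_add_one (by nlinarith)).le
  set t : ℕ := (K + 1) / (K0 + D - 1) with ht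
  have hpos : 0 < K0 + D - 1 := by omega
  have ht1 : t * (K0 + D - 1) ≤ K + 1 := Nat.div_mul_le_self _ _
  have ht2 : K + 1 < (t + 1) * (K0 + D - 1) := by
    have h2 := Nat.div_add_mod (K + 1) (K0 + D - 1)
    have h3 := Nat.mod_lt (K + 1) hpos
    rw [← ht] at h2
    rw [add_mul, one_mul, mul_comm t]
    omega
  have hcast : ((K0 + D - 1 : ℕ) : ℝ) = (K0 : ℝ) + D - 1 := by
    rw [Nat.cast_sub (by omega)]; push_cast; ring
  have ht2' : (K : ℝ) + 1 < (t + 1) * ((K0 : ℝ) + D - 1) := by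
    rw [← hcast]; exact_mod_cast ht2
  have hq : 2 * ((K0 : ℝ) + D - 1) ≤ (D : ℝ) ^ 2 * (1 + 1 / D + 3 * η) := by
    have e : (D : ℝ) ^ 2 * (1 + 1 / D + 3 * η) = D ^ 2 + D + r := by
      rw [hr]; field_simp
    rw [e]; linarith
  have hq2 : 1 + 1 / (D : ℝ) + 3 * η ≤ 1 + 61 / 20 * η := by linarith
  have hbig : (2 * K + D : ℝ) ≤ (t + 1) * ((D : ℝ) ^ 2 * (1 + 61 / 20 * η)) + D := by
    have h1 : ((t : ℝ) + 1) * (2 * ((K0 : ℝ) + D - 1)) ≤
        (t + 1) * ((D : ℝ) ^ 2 * (1 + 61 / 20 * η)) := by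
      apply mul_le_mul_of_nonneg_left _ (by positivity)
      exact hq.trans (mul_le_mul_of_nonneg_left hq2 (by positivity))
    linarith
  have htD : (D : ℝ) ≤ t := by
    by_contra hcon
    push Not at hcon
    have h1 : (t : ℝ) + 1 ≤ D := by
      have : t < D := by exact_mod_cast hcon
      exact_mod_cast this
    have h2 : ((t : ℝ) + 1) * ((D : ℝ) ^ 2 * (1 + 61 / 20 * η)) ≤ D * ((D : ℝ) ^ 2 * 2) := by
      apply mul_le_mul h1 _ (by positivity) (by positivity)
      apply mul_le_mul_of_nonneg_left _ (by positivity)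
      linarith
    nlinarith [pow_pos hD0 3, pow_pos hD0 2]
  have ht0 : (0 : ℝ) < t := by linarith
  have ht1' : 1 ≤ t := by
    have : 0 < t := by exact_mod_cast ht0
    omega
  have h := pot_opt (t := t) (S := D) (D := D) (m := 0) (K := K0) (K' := K) ht1' (by omega)
    (by omega) (by omega) (by
      refine le_trans ?_ ht1
      have e : K0 + D - 1 = (K0 + 1) + (D - 2) := by omega
      rw [e, mul_add t (K0 + 1) (D - 2)]
      apply Nat.add_le_add_left
      exact Nat.mul_le_mul_right _ (by omega)) (r := r) hr0 (by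
      push_cast
      nlinarith)
  apply h.mono
  rw [XX_div (by omega) (by omega)]
  have hE := exp_small hD hη (S := D) (u := D) (r := r) hD0 le_rfl (by rw [hr])
  have hL : Ln D (((D : ℝ) * D + ((0 : ℕ) : ℝ)) / D) = 1 / D := by
    unfold Ln
    push_cast
    field_simp
    ring
  rw [hL]
  set u : ℝ := (2 * K + D : ℝ) / D with hudef
  have huD : u * D = 2 * K + D := by rw [hudef]; field_simp
  have hu0 : 0 < u := by
    rw [hudef]
    have : (0 : ℝ) ≤ K := by positivity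
    positivity
  have h1 : 1 / (D : ℝ) + Real.exp (-r ^ 2 / (2 * (D : ℝ) ^ 2 * D)) ≤
      1 / D * (1 + 1 / D) := by
    have h2 : 1 / (D : ℝ) ^ 4 ≤ 1 / D ^ 2 :=
      one_div_le_one_div_of_le (by positivity) (pow_le_pow_right₀ (by linarith) (by norm_num))
    have h3 : 1 / (D : ℝ) * (1 + 1 / D) = 1 / D + 1 / D ^ 2 := by field_simp
    rw [h3]; linarith
  have h2 : (1 / (D : ℝ) + Real.exp (-r ^ 2 / (2 * (D : ℝ) ^ 2 * D))) / t ≤
      1 / D * (1 + 1 / D) / t := div_le_div_of_nonneg_right h1 ht0.le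
  refine h2.trans ?_
  have h3 : u ≤ (t + 1) * (D * (1 + 61 / 20 * η)) + 1 := by
    rw [hudef, div_le_iff₀ hD0]
    have e : ((t + 1) * ((D : ℝ) * (1 + 61 / 20 * η)) + 1) * D =
        (t + 1) * ((D : ℝ) ^ 2 * (1 + 61 / 20 * η)) + D := by ring
    rw [e]; exact hbig
  have h4 : 1 / (D : ℝ) * (1 + 1 / D) / t = (1 + 1 / D) / (D * t) := by field_simp
  have h5 : 1 / u * (1 + 10 * η) = (1 + 10 * η) / u := by ring
  rw [h4, h5, div_le_div_iff₀ (by positivity) hu0]
  have h6 : (1 + 1 / (D : ℝ)) ≤ 1 + η / 20 := by linarith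
  have h7 : (t : ℝ) + 1 ≤ t * (1 + η / 20) := by
    have h8 : 1 ≤ (t : ℝ) * (1 / D) := by
      rw [mul_one_div, le_div_iff₀ hD0]; linarith
    have h9 : (t : ℝ) * (1 / D) ≤ t * (η / 20) := mul_le_mul_of_nonneg_left hinv ht0.le
    linarith
  have h10 : (1 : ℝ) ≤ D * t * (η / 20) := by
    have h8 : 1 ≤ (t : ℝ) * (1 / D) := by
      rw [mul_one_div, le_div_iff₀ hD0]; linarith
    have h9 : (t : ℝ) * (1 / D) ≤ t * (η / 20) := mul_le_mul_of_nonneg_left hinv ht0.le
    have h11 : (t : ℝ) * (η / 20) ≤ D * (t * (η / 20)) :=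
      le_mul_of_one_le_left (by positivity) (by linarith)
    linarith
  have h12 : u ≤ D * t * ((1 + η / 20) * (1 + 61 / 20 * η) + η / 20) := by
    have h13 : (t + 1 : ℝ) * (D * (1 + 61 / 20 * η)) ≤ t * (1 + η / 20) *
        (D * (1 + 61 / 20 * η)) := mul_le_mul_of_nonneg_right h7 (by positivity)
    linarith
  have h14 : (1 + 1 / (D : ℝ)) * u ≤ (1 + η / 20) *
      (D * t * ((1 + η / 20) * (1 + 61 / 20 * η) + η / 20)) :=
    mul_le_mul h6 h12 hu0.le (by positivity)
  refine h14.trans ?_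
  have h15 : (1 + η / 20) * ((1 + η / 20) * (1 + 61 / 20 * η) + η / 20) ≤ 1 + 10 * η := by
    nlinarith [mul_nonneg hη0 (sub_nonneg.2 hη20), mul_nonneg (mul_nonneg hη0 hη0)
      (sub_nonneg.2 hη20)]
  calc (1 + η / 20) * (D * t * ((1 + η / 20) * (1 + 61 / 20 * η) + η / 20)) =
      (D * t) * ((1 + η / 20) * ((1 + η / 20) * (1 + 61 / 20 * η) + η / 20)) := by ring
    _ ≤ (D * t) * (1 + 10 * η) := mul_le_mul_of_nonneg_left h15 (by positivity)
    _ = (1 + 10 * η) * (D * t) := by ring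

end Pool.Agent.Helper23.CE
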