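import Pool.Agent.Helper23.CE.Sym

/-!
# From covers by hyperplanes to covers in barycentric coordinates
-/

set_option autoImplicit false

namespace Pool.Agent.Helper23.CE

open Finset
open Pool.Agent.Helper53.TG

open Classical in
/-- the barycentric equation of a hyperplane. -/
noncomputable def toPair {d : ℕ} (S : Set (Fin d → ℝ)) : (Fin (d + 1) → ℝ) × ℝ :=
  if h : IsHyperplane S then (Fin.snoc (α := fun _ => ℝ) h.choose 0, h.choose_spec.choose)
  else (0, 0)

lemma toPair_spec {d : ℕ} {S : Set (Fin d → ℝ)} (h : IsHyperplane S) :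
    (∃ i j, (toPair S).1 i ≠ (toPair S).1 j) ∧
      ∀ X : Fin (d + 1) → ℕ, On X (toPair S) ↔ (fun i : Fin d => (X i.castSucc : ℝ)) ∈ S := by
  have hs := h.choose_spec.choose_spec
  have e : toPair S = (Fin.snoc (α := fun _ => ℝ) h.choose 0, h.choose_spec.choose) := by
    unfold toPair; rw [dif_pos h]
  constructor
  · obtain ⟨i, hi⟩ : ∃ i, h.choose i ≠ 0 := by
      by_contra hcon
      push Not at hcon
      exact hs.1 (funext hcon)
    refine ⟨i.castSucc, Fin.last d, ?_⟩
    rw [e]
    simp only [Fin.snoc_castSucc, Fin.snoc_last]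
    exact hi
  · intro X
    rw [e]
    unfold On
    rw [Fin.sum_univ_castSucc]
    simp only [Fin.snoc_castSucc, Fin.snoc_last, zero_mul, add_zero]
    constructor
    · intro h1
      rw [hs.2]
      exact h1
    · intro h1
      rw [hs.2] at h1
      exact h1

theorem lower_of_valid {d K : ℕ} (hd : 1 ≤ d) {b : ℝ} (h : Valid (d + 1) K b) {n : ℕ}
    (hn : 1 ≤ n) : (n : ℝ) ≤ (f n d (K + 1) : ℝ) * b := by
  classical
  obtain ⟨H, hH, hcard⟩ := exists_cover (d := d) (n := n) (k := K + 1) hd hn
  rw [← hcard]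
  have h1 := h n (H.map toPair) (by
    constructor
    · intro p hp
      obtain ⟨S, hS, rfl⟩ := Multiset.mem_map.1 hp
      exact (toPair_spec (hH.1 S hS)).1
    · intro X hX
      have hx : (fun i : Fin d => (X i.castSucc : ℝ)) ∈ Grid d n := by
        refine ⟨fun i => X i.castSucc, fun i => rfl, ?_⟩
        rw [Fin.sum_univ_castSucc] at hX
        show ∑ i : Fin d, X i.castSucc + 1 ≤ n
        omega
      refine (hH.2 _ hx).trans (le_of_eq ?_)
      unfold mult
      rw [Multiset.countP_map]
      congr 1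
      have : ∀ S ∈ H, ((fun i : Fin d => (X i.castSucc : ℝ)) ∈ S ↔ On X (toPair S)) :=
        fun S hS => ((toPair_spec (hH.1 S hS)).2 X).symm
      exact Multiset.filter_congr this)
  rw [Multiset.card_map] at h1
  exact h1

end Pool.Agent.Helper23.CE
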