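import Pool.Agent.Helper23.CE.Defs
import Pool.Agent.Helper23.CE.Num
import Pool.Agent.Helper23.CE.Trans
import Pool.Agent.Helper53.TG.Main

/-!
# Linear rates of `k`-covers of triangular grids in high dimension
-/

set_option autoImplicit false

namespace Pool.Agent.Helper23.CE

open Finset
open Pool.Agent.Helper53.TG

lemma ind_eq {d K : ℕ} : ind d (K + 1) = (2 * K + (d + 1)) / (d + 1) := by
  unfold ind
  rw [Nat.add_div_right _ (by omega), Nat.add_sub_cancel, add_comm]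

lemma ind_le {d K : ℕ} : ind d (K + 1) * (d + 1) ≤ 2 * K + (d + 1) := by
  rw [ind_eq]; exact Nat.div_mul_le_self _ _

lemma lt_ind {d K : ℕ} : 2 * K + (d + 1) < (ind d (K + 1) + 1) * (d + 1) := by
  rw [ind_eq]
  have h2 := Nat.div_add_mod (2 * K + (d + 1)) (d + 1)
  have h3 := Nat.mod_lt (2 * K + (d + 1)) (show 0 < d + 1 by omega)
  rw [add_mul, one_mul, mul_comm ((2 * K + (d + 1)) / (d + 1))]
  omega

lemma ind_pos {d k : ℕ} : 1 ≤ ind d k := by unfold ind; exact Nat.le_add_right 1 _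

lemma den_pos {d K : ℕ} : K + 1 ≤ ind d (K + 1) * (d + 1) := by
  have h := lt_ind (d := d) (K := K)
  have h1 := ind_pos (d := d) (k := K + 1)
  have h2 : d + 1 ≤ ind d (K + 1) * (d + 1) := Nat.le_mul_of_pos_left _ h1
  rw [add_mul, one_mul] at h
  omega

/-- the reciprocal of the rate. -/
lemma rate_inv {d K : ℕ} :
    Ln ((2 * K + (d + 1)) / (d + 1) : ℕ) ((2 * K + ((d + 1 : ℕ) : ℝ)) / ((d + 1 : ℕ) : ℝ)) *
      rate d (K + 1) = 1 := by
  rw [← ind_eq]
  have h1 : (1 : ℝ) ≤ ind d (K + 1) := by exact_mod_cast ind_pos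
  have h2 : (K : ℝ) + 1 ≤ ind d (K + 1) * ((d : ℝ) + 1) := by exact_mod_cast den_pos
  unfold Ln rate
  push_cast
  set J : ℝ := (ind d (K + 1) : ℝ) with hJ
  have h3 : 0 < ((d : ℝ) + 1) * J - K := by linarith
  have e4 : ((d : ℝ) + 1) * J - ((K : ℝ) + 1 - 1) = ((d : ℝ) + 1) * J - K := by ring
  have h4 : ((d : ℝ) + 1) * J - K ≠ 0 := h3.ne'
  rw [e4]
  have e5 : 2 * J + 1 - (2 * (K : ℝ) + (d + 1)) / (d + 1) =
      2 * (((d : ℝ) + 1) * J - K) / (d + 1) := by
    field_simp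
    ring
  rw [e5]
  have h5 : J ≠ 0 := by positivity
  have h6 : J + 1 ≠ 0 := by positivity
  have h7 : (d : ℝ) + 1 ≠ 0 := by positivity
  field_simp

lemma rate_pos {d K : ℕ} : 0 < rate d (K + 1) := by
  have h1 : (1 : ℝ) ≤ ind d (K + 1) := by exact_mod_cast ind_pos
  have h2 : (K : ℝ) + 1 ≤ ind d (K + 1) * ((d : ℝ) + 1) := by exact_mod_cast den_pos
  unfold rate
  push_cast
  have h3 : 0 < ((d : ℝ) + 1) * ind d (K + 1) - ((K : ℝ) + 1 - 1) := by linarith
  positivity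

theorem lower {d k n : ℕ} (hd : 1 ≤ d) (hk : 1 ≤ k) (hn : 1 ≤ n) :
    (1 - 20 * err d) * rate d k * n ≤ (f n d k : ℝ) := by
  obtain ⟨K, rfl⟩ : ∃ K, k = K + 1 := ⟨k - 1, by omega⟩
  have hr := rate_pos (d := d) (K := K)
  have hn0 : (0 : ℝ) < n := by exact_mod_cast hn
  rcases le_total 1 (20 * err d) with h | h
  · have h1 : (1 - 20 * err d) * rate d (K + 1) * n ≤ 0 := by
      apply mul_nonpos_of_nonpos_of_nonneg _ hn0.le
      exact mul_nonpos_of_nonpos_of_nonneg (by linarith) hr.le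
    exact h1.trans (by positivity)
  · set η := err d with hη
    have hη' : η = Real.sqrt (Real.log ((d + 1 : ℕ) : ℝ) / ((d + 1 : ℕ) : ℝ)) := by
      rw [hη]; unfold err; push_cast; rfl
    have hη0 : 0 ≤ η := by rw [hη]; unfold err; positivity
    have hsq : η ^ 2 = Real.log ((d + 1 : ℕ) : ℝ) / ((d + 1 : ℕ) : ℝ) := by
      rw [hη', Real.sq_sqrt]
      have := Real.log_natCast_nonneg (d + 1)
      positivity
    have hD : 3 ≤ d + 1 := by
      by_contra hcon
      have h2 : d + 1 = 2 := by omega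
      rw [h2] at hsq
      have h3 := Real.log_two_gt_d9
      have h4 : η ^ 2 ≤ 1 / 400 := by nlinarith
      push_cast at hsq
      linarith
    have hDr : (3 : ℝ) ≤ ((d + 1 : ℕ) : ℝ) := by exact_mod_cast hD
    have hlog : 1 ≤ Real.log ((d + 1 : ℕ) : ℝ) := by
      rw [Real.le_log_iff_exp_le (by linarith)]
      have := Real.exp_one_lt_d9
      linarith
    have hinv : 1 / ((d + 1 : ℕ) : ℝ) ≤ η / 20 := by
      have h1 : 1 / ((d + 1 : ℕ) : ℝ) ≤ η ^ 2 := by
        rw [hsq]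
        exact div_le_div_of_nonneg_right hlog (by linarith)
      nlinarith
    have hη20 : η ≤ 1 / 20 := by linarith
    have hV : Valid (d + 1) K (Ln ((2 * K + (d + 1)) / (d + 1) : ℕ)
        ((2 * K + ((d + 1 : ℕ) : ℝ)) / ((d + 1 : ℕ) : ℝ)) * (1 + 10 * η)) := by
      rcases le_total (2 * (K : ℝ) + ((d + 1 : ℕ) : ℝ)) (((d + 1 : ℕ) : ℝ) ^ 4) with h4 | h4
      · exact num_direct hD hη' hη20 hinv h4
      · apply (num_large hD hη' hη20 hinv h4).mono
        apply mul_le_mul_of_nonneg_right _ (by positivity)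
        apply Ln_ge
        · rw [← ind_eq]; exact_mod_cast ind_pos
        · rw [le_div_iff₀ (by linarith), ← ind_eq]
          exact_mod_cast ind_le
        · rw [div_le_iff₀ (by linarith), ← ind_eq]
          exact_mod_cast lt_ind.le
    have h5 := lower_of_valid hd hV hn
    have hinvr := rate_inv (d := d) (K := K)
    set v := Ln ((2 * K + (d + 1)) / (d + 1) : ℕ)
        ((2 * K + ((d + 1 : ℕ) : ℝ)) / ((d + 1 : ℕ) : ℝ)) with hv
    have hf : (0 : ℝ) ≤ (f n d (K + 1) : ℝ) := by positivity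
    have h6 : rate d (K + 1) * n ≤ (f n d (K + 1) : ℝ) * (1 + 10 * η) := by
      calc rate d (K + 1) * n ≤ rate d (K + 1) * ((f n d (K + 1) : ℝ) * (v * (1 + 10 * η))) :=
            mul_le_mul_of_nonneg_left h5 hr.le
        _ = (f n d (K + 1) : ℝ) * (1 + 10 * η) * (v * rate d (K + 1)) := by ring
        _ = _ := by rw [hinvr, mul_one]
    have h7 : (1 - 20 * η) * (1 + 10 * η) ≤ 1 := by nlinarith
    calc (1 - 20 * η) * rate d (K + 1) * n = (1 - 20 * η) * (rate d (K + 1) * n) := by ring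
      _ ≤ (1 - 20 * η) * ((f n d (K + 1) : ℝ) * (1 + 10 * η)) :=
          mul_le_mul_of_nonneg_left h6 (by linarith)
      _ = (f n d (K + 1) : ℝ) * ((1 - 20 * η) * (1 + 10 * η)) := by ring
      _ ≤ (f n d (K + 1) : ℝ) * 1 := mul_le_mul_of_nonneg_left h7 hf
      _ = _ := mul_one _

theorem upper' {d k n : ℕ} (hd : 1 ≤ d) (hk : 1 ≤ k) (hn : 1 ≤ n) :
    (f n d k : ℝ) ≤ rate d k * n + ((d : ℝ) + 1) * ind d k := by
  obtain ⟨K, rfl⟩ : ∃ K, k = K + 1 := ⟨k - 1, by omega⟩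
  have h1 := den_pos (d := d) (K := K)
  have h := upper (d := d) (n := n) (k := K + 1) (J := ind d (K + 1))
    (Q := ind d (K + 1) * (d + 1) - K) hd hn (by omega) (by rw [mul_comm (d + 1)]; omega)
  refine h.trans (le_of_eq ?_)
  rw [Nat.cast_sub (by omega)]
  unfold rate
  push_cast
  have e : ((d : ℝ) + 1) * (ind d (K + 1) : ℝ) - ((K : ℝ) + 1 - 1) =
    (ind d (K + 1) : ℝ) * ((d : ℝ) + 1) - K := by ring
  rw [e]

/-- comparison of rates: `C n ≤ R n + B` for all `n` gives `C ≤ R`. -/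
lemma le_of_linear {C R B : ℝ} (h : ∀ n : ℕ, 1 ≤ n → C * n ≤ R * n + B) : C ≤ R := by
  by_contra hcon
  push Not at hcon
  obtain ⟨n, hn⟩ := exists_nat_gt (B / (C - R))
  have h1 := h (n + 1) (by omega)
  rw [div_lt_iff₀ (by linarith)] at hn
  push_cast at h1
  nlinarith

theorem isRate_le {d k : ℕ} (hd : 1 ≤ d) (hk : 1 ≤ k) {C : ℝ} (hC : IsRate d k C) :
    C ≤ rate d k := by
  obtain ⟨B, hB⟩ := hC
  apply le_of_linear (B := ((d : ℝ) + 1) * ind d k + B)
  intro n hn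
  have h1 := (abs_le.1 (hB n hn)).1
  have h2 := upper' hd hk hn
  linarith

theorem le_isRate {d k : ℕ} (hd : 1 ≤ d) (hk : 1 ≤ k) {C : ℝ} (hC : IsRate d k C) :
    (1 - 20 * err d) * rate d k ≤ C := by
  obtain ⟨B, hB⟩ := hC
  apply le_of_linear (B := B)
  intro n hn
  have h1 := (abs_le.1 (hB n hn)).2
  have h2 := lower hd hk hn
  linarith

lemma isRate_nonneg {d k : ℕ} {C : ℝ} (hC : IsRate d k C) : 0 ≤ C := by
  obtain ⟨B, hB⟩ := hC
  apply le_of_linear (B := B)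
  intro n hn
  have h1 := (abs_le.1 (hB n hn)).2
  have : (0 : ℝ) ≤ (f n d k : ℝ) := by positivity
  linarith

/-- the increment of the conjectured rates, with its slack. -/
lemma rate_slack {d K : ℕ} :
    ∃ x : ℝ, x = (2 * (K : ℝ)) / ((d : ℝ) + 1) + 1 - ind d (K + 1) ∧ 0 ≤ x ∧ x ≤ 1 ∧
      rate d (K + 1 + (d + 1)) - rate d (K + 1) - 2 =
        2 * x * (1 - x) / ((ind d (K + 1) + 1 - x) * (ind d (K + 1) + 3 - x)) ∧
      rate d (K + 1 + (d + 1)) =
        ((ind d (K + 1) : ℝ) + 2) * (ind d (K + 1) + 3) / (ind d (K + 1) + 3 - x) := by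
  have hJ : ind d (K + 1 + (d + 1)) = ind d (K + 1) + 2 := by
    have e : K + 1 + (d + 1) = (K + (d + 1)) + 1 := by ring
    rw [e, ind_eq, ind_eq]
    have e2 : 2 * (K + (d + 1)) + (d + 1) = 2 * K + (d + 1) + 2 * (d + 1) := by ring
    rw [e2, Nat.add_mul_div_right _ _ (by omega)]
  have h1 : (ind d (K + 1) : ℝ) * ((d : ℝ) + 1) ≤ 2 * K + (d + 1) := by exact_mod_cast ind_le
  have h2 : 2 * (K : ℝ) + (d + 1) ≤ ((ind d (K + 1) : ℝ) + 1) * ((d : ℝ) + 1) := by
    exact_mod_cast lt_ind.le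
  have hJ1 : (1 : ℝ) ≤ ind d (K + 1) := by exact_mod_cast ind_pos
  have hd0 : (0 : ℝ) < (d : ℝ) + 1 := by positivity
  set J : ℝ := (ind d (K + 1) : ℝ) with hJd
  set x : ℝ := (2 * (K : ℝ)) / ((d : ℝ) + 1) + 1 - J with hx
  have hKx : 2 * (K : ℝ) = (x + J - 1) * ((d : ℝ) + 1) := by rw [hx]; field_simp; ring
  have hx0 : 0 ≤ x := by
    have : 0 ≤ x * ((d : ℝ) + 1) := by nlinarith
    exact nonneg_of_mul_nonneg_left this hd0
  have hx1 : x ≤ 1 := by
    have : 0 ≤ (1 - x) * ((d : ℝ) + 1) := by nlinarith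
    have := nonneg_of_mul_nonneg_left this hd0
    linarith
  have hr1 : rate d (K + 1) = J * (J + 1) / (J + 1 - x) := by
    unfold rate
    rw [← hJd]
    push_cast
    have e : 2 * (((d : ℝ) + 1) * J - ((K : ℝ) + 1 - 1)) = ((d : ℝ) + 1) * (J + 1 - x) := by
      have : 2 * (((d : ℝ) + 1) * J - ((K : ℝ) + 1 - 1)) = 2 * ((d : ℝ) + 1) * J - 2 * K := by
        ring
      rw [this, hKx]; ring
    rw [e]
    have : J + 1 - x ≠ 0 := by linarith
    field_simp
  have hr2 : rate d (K + 1 + (d + 1)) = (J + 2) * (J + 3) / (J + 3 - x) := by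
    unfold rate
    rw [hJ]
    push_cast
    rw [← hJd]
    have e : 2 * (((d : ℝ) + 1) * (J + 2) - ((K : ℝ) + 1 + (d + 1) - 1)) =
        ((d : ℝ) + 1) * (J + 3 - x) := by
      have : 2 * (((d : ℝ) + 1) * (J + 2) - ((K : ℝ) + 1 + (d + 1) - 1)) =
          2 * ((d : ℝ) + 1) * (J + 1) - 2 * K := by
        ring
      rw [this, hKx]; ring
    rw [e]
    have : J + 3 - x ≠ 0 := by linarith
    field_simp
    ring
  refine ⟨x, rfl, hx0, hx1, ?_, hr2⟩
  rw [hr1, hr2]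
  have h3 : J + 1 - x ≠ 0 := by linarith
  have h4 : J + 3 - x ≠ 0 := by linarith
  field_simp
  ring

lemma rate_increment {d k : ℕ} (hk : 1 ≤ k) : rate d k + 2 ≤ rate d (k + (d + 1)) := by
  obtain ⟨K, rfl⟩ : ∃ K, k = K + 1 := ⟨k - 1, by omega⟩
  obtain ⟨x, hx, hx0, hx1, hs, hr⟩ := rate_slack (d := d) (K := K)
  have hJ1 : (1 : ℝ) ≤ ind d (K + 1) := by exact_mod_cast ind_pos
  have h1 : 0 ≤ 2 * x * (1 - x) / ((ind d (K + 1) + 1 - x) * (ind d (K + 1) + 3 - x)) := by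
    apply div_nonneg
    · exact mul_nonneg (by linarith) (by linarith)
    · exact mul_nonneg (by linarith) (by linarith)
  linarith

/-- approximate increment inequality, all pairs. -/
theorem increment_approx {d k : ℕ} (hd : 1 ≤ d) (hk : 1 ≤ k)
    {C C' : ℝ} (hC : IsRate d k C) (hC' : IsRate d (k + (d + 1)) C') :
    (1 - 20 * err d) * (C + 2) ≤ C' := by
  have h0 := isRate_nonneg hC
  have h0' := isRate_nonneg hC'
  rcases le_total 1 (20 * err d) with h | h
  · have : (1 - 20 * err d) * (C + 2) ≤ 0 :=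
      mul_nonpos_of_nonpos_of_nonneg (by linarith) (by linarith)
    linarith
  · have h1 := isRate_le hd hk hC
    have h2 := le_isRate hd (by omega) hC'
    have h3 := rate_increment (d := d) hk
    calc (1 - 20 * err d) * (C + 2) ≤ (1 - 20 * err d) * rate d (k + (d + 1)) :=
          mul_le_mul_of_nonneg_left (by linarith) (by linarith)
      _ ≤ C' := h2

theorem increment {d k : ℕ} (hd : 1 ≤ d) (hk : 1 ≤ k)
    (hoff : ∀ m : ℤ, 160 * (((k : ℝ) - 1) / ((d : ℝ) + 1) + 2) ^ 3 * err d ≤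
      |2 * ((k : ℝ) - 1) / ((d : ℝ) + 1) - m|)
    {C C' : ℝ} (hC : IsRate d k C) (hC' : IsRate d (k + (d + 1)) C') : C + 2 ≤ C' := by
  have h1 := isRate_le hd hk hC
  have h2 := le_isRate hd (by omega) hC'
  obtain ⟨K, rfl⟩ : ∃ K, k = K + 1 := ⟨k - 1, by omega⟩
  obtain ⟨x, hx, hx0, hx1, hs, hr⟩ := rate_slack (d := d) (K := K)
  have hJ1 : (1 : ℝ) ≤ ind d (K + 1) := by exact_mod_cast ind_pos
  have hη0 : 0 ≤ err d := by unfold err; positivity
  set J : ℝ := (ind d (K + 1) : ℝ) with hJd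
  set η := err d with hη
  set κ : ℝ := (K : ℝ) / ((d : ℝ) + 1) with hκ
  have hκ0 : 0 ≤ κ := by positivity
  have e1 : (((K + 1 : ℕ) : ℝ) - 1) / ((d : ℝ) + 1) = κ := by push_cast; rw [hκ]; ring
  have e2 : 2 * (((K + 1 : ℕ) : ℝ) - 1) / ((d : ℝ) + 1) = 2 * κ := by
    push_cast; rw [hκ]; ring
  have hxk : x = 2 * κ + 1 - J := by rw [hx, hκ]; ring
  have hδ : 160 * (κ + 2) ^ 3 * η ≤ 2 * (x * (1 - x)) := by
    have ha := hoff ((ind d (K + 1) : ℤ) - 1)
    have hb := hoff (ind d (K + 1) : ℤ)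
    rw [e1, e2] at ha hb
    push_cast at ha hb
    rw [← hJd] at ha hb
    have ea : 2 * κ - (J - 1) = x := by rw [hxk]; ring
    have eb : 2 * κ - J = -(1 - x) := by rw [hxk]; ring
    rw [ea, abs_of_nonneg hx0] at ha
    rw [eb, abs_neg, abs_of_nonneg (by linarith)] at hb
    have hp : 0 ≤ 160 * (κ + 2) ^ 3 * η := by positivity
    rcases le_total x (1 / 2) with h | h
    · nlinarith
    · nlinarith
  have hJκ : J ≤ 2 * κ + 1 := by linarith
  -- the inequality (1 - 20 η) c' ≥ c + 2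
  have key : 20 * η * rate d (K + 1 + (d + 1)) ≤
      rate d (K + 1 + (d + 1)) - rate d (K + 1) - 2 := by
    rw [hs, hr]
    have p1 : 0 < J + 1 - x := by linarith
    have p2 : 0 < J + 3 - x := by linarith
    rw [mul_div_assoc', div_le_div_iff₀ p2 (mul_pos p1 p2)]
    have h3 : (J + 1) * ((J + 2) * (J + 3)) ≤ 8 * (κ + 2) ^ 3 := by
      have a1 : J + 1 ≤ 2 * (κ + 2) := by linarith
      have a2 : J + 2 ≤ 2 * (κ + 2) := by linarith
      have a3 : J + 3 ≤ 2 * (κ + 2) := by linarith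
      calc (J + 1) * ((J + 2) * (J + 3)) ≤ (2 * (κ + 2)) * ((2 * (κ + 2)) * (2 * (κ + 2))) := by
            apply mul_le_mul a1 _ (by positivity) (by positivity)
            exact mul_le_mul a2 a3 (by positivity) (by positivity)
        _ = 8 * (κ + 2) ^ 3 := by ring
    have h4 : 20 * η * ((J + 2) * (J + 3)) * (J + 1 - x) ≤ 2 * x * (1 - x) := by
      have h5 : 20 * η * ((J + 2) * (J + 3)) * (J + 1 - x) ≤
          20 * η * ((J + 1) * ((J + 2) * (J + 3))) := by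
        have : 0 ≤ 20 * η * ((J + 2) * (J + 3)) * x := by positivity
        linarith
      have h6 : 20 * η * ((J + 1) * ((J + 2) * (J + 3))) ≤ 20 * η * (8 * (κ + 2) ^ 3) :=
        mul_le_mul_of_nonneg_left h3 (by positivity)
      linarith
    calc 20 * η * ((J + 2) * (J + 3)) * ((J + 1 - x) * (J + 3 - x)) =
        (20 * η * ((J + 2) * (J + 3)) * (J + 1 - x)) * (J + 3 - x) := by ring
      _ ≤ (2 * x * (1 - x)) * (J + 3 - x) := mul_le_mul_of_nonneg_right h4 p2.le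
  linarith

end Pool.Agent.Helper23.CE
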