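import Pool.Agent.Helper23.CE.Const
import Pool.Agent.Helper23.CE.Main
import Pool.Agent.Helper23.CE.Defs2

/-!
# The consequences of the bounded reserve
-/

set_option autoImplicit false

namespace Pool.Agent.Helper23.CE

open Finset
open Pool.Agent.Helper53.TG

/-- the second error term: `errk d k = ((k-1)/(d+1) + 2) / (d+1)`. -/
noncomputable def errk (d k : ℕ) : ℝ := (((k : ℝ) - 1) / ((d : ℝ) + 1) + 2) / ((d : ℝ) + 1)

theorem num_fast {D K : ℕ} (hD : 2 ≤ D) {E : ℝ} (hE : E = ((K : ℝ) / D + 2) / D)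
    (hE64 : 64 * E ≤ 1) :
    Valid D K (Ln ((2 * K + D) / D : ℕ) ((2 * K + D : ℝ) / D) * (1 + 60 * E)) := by
  have hDr : (2 : ℝ) ≤ D := by exact_mod_cast hD
  have hD0 : (0 : ℝ) < D := by linarith
  have hE0 : 0 ≤ E := by rw [hE]; positivity
  set u : ℝ := (2 * K + D : ℝ) / D with hudef
  have huD : u * D = 2 * K + D := by rw [hudef]; field_simp
  have hu1 : 1 ≤ u := by
    rw [hudef, le_div_iff₀ hD0]
    have : (0 : ℝ) ≤ K := by positivity
    linarith
  set J : ℕ := (2 * K + D) / D with hJ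
  have hJ1 : 1 ≤ J := by
    rw [hJ, Nat.le_div_iff_mul_le (by omega)]
    omega
  have hJr : (1 : ℝ) ≤ J := by exact_mod_cast hJ1
  have hJu : (J : ℝ) ≤ u := by
    rw [hudef, le_div_iff₀ hD0]
    have : J * D ≤ 2 * K + D := Nat.div_mul_le_self _ _
    exact_mod_cast this
  have hJu' : u ≤ (J : ℝ) + 1 := by
    rw [hudef, div_le_iff₀ hD0]
    have : 2 * K + D < (J + 1) * D := by
      rw [hJ]
      have h2 := Nat.div_add_mod (2 * K + D) D
      have h3 := Nat.mod_lt (2 * K + D) (show 0 < D by omega)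
      nlinarith
    have h : ((2 * K + D : ℕ) : ℝ) < (((J + 1) * D : ℕ) : ℝ) := by exact_mod_cast this
    push_cast at h
    linarith
  have hv : 1 / u ≤ Ln J u := Ln_ge hJr hJu hJu'
  have hv0 : 0 < Ln J u := lt_of_lt_of_le (by positivity) hv
  have huE : u = 2 * (E * D) - 3 := by
    rw [hudef, hE]; field_simp; ring
  have hRJ : (Rs J : ℝ) = 6 * (J : ℝ) ^ 2 + 16 * J + 11 := by unfold Rs; push_cast; ring
  have hR1 : (Rs J : ℝ) ≤ 33 / 2 * (u * (E * D)) := by
    rw [hRJ]
    have h1 : E * D = (u + 3) / 2 := by linarith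
    rw [h1]
    nlinarith
  have hR2 : (Rs J : ℝ) / D ≤ 33 / 2 * (u * E) := by
    rw [div_le_iff₀ hD0]
    linarith
  have hR3 : (Rs J : ℝ) / D ≤ 33 / 128 * u := by
    have : u * (64 * E) ≤ u * 1 := mul_le_mul_of_nonneg_left hE64 (by linarith)
    linarith
  by_cases hN : Rs J ≤ 2 * K
  · set N' : ℕ := 2 * K + D - Rs J with hN'
    set S : ℕ := N' / D with hS
    set m : ℕ := N' % D with hm
    have hS1 : 1 ≤ S := by
      rw [hS, Nat.le_div_iff_mul_le (by omega)]
      omega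
    have hmD : m < D := Nat.mod_lt _ (by omega)
    have hSD : S * D + m = N' := by rw [hS, hm]; exact Nat.div_add_mod' N' D
    have hSJ : S ≤ J := Nat.div_le_div_right (by omega)
    have hRSJ : Rs S ≤ Rs J := by
      unfold Rs
      have : S ^ 2 ≤ J ^ 2 := Nat.pow_le_pow_left hSJ 2
      omega
    have hreal : (S : ℝ) * D + m + Rs J = 2 * K + D := by
      have : S * D + m + Rs J = 2 * K + D := by omega
      exact_mod_cast this
    have hSr : (1 : ℝ) ≤ S := by exact_mod_cast hS1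
    have hmr : (m : ℝ) ≤ D := by exact_mod_cast hmD.le
    set z : ℝ := ((S : ℝ) * D + m) / D with hz
    have hzu : z = u - Rs J / D := by
      rw [hz, hudef, ← sub_div]
      congr 1
      linarith
    have hz1 : z ≤ (S : ℝ) + 1 := by
      rw [hz, div_le_iff₀ hD0]; linarith
    have h := valid_reserve (D := D) (K := K) (S := S) (m0 := m) hD hS1 hmD.le (by omega)
    apply h.mono
    rw [XX_div hS1 (by omega), ← hz]
    have hb : Ln S z ≤ Ln J u + (Rs J / D) / (S * (S + 1)) := by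
      have h1 : Ln S z = Ln S u + (Rs J / D) / (S * (S + 1)) := by
        unfold Ln
        rw [← add_div, hzu]
        congr 1
        ring
      rw [h1]
      have h2 := Ln_le hS1 hSJ hJu
      linarith
    have hc : (Rs J / D : ℝ) / (S * (S + 1)) ≤ 60 * E * Ln J u := by
      have h1 : 60 * E * (1 / u) ≤ 60 * E * Ln J u :=
        mul_le_mul_of_nonneg_left hv (by positivity)
      refine le_trans ?_ h1
      rw [div_le_iff₀ (by positivity)]
      have h2 : 95 / 128 * u ≤ z := by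
        rw [hzu]
        linarith
      have h3 : (95 / 128 * u) ^ 2 ≤ ((S : ℝ) + 1) ^ 2 :=
        pow_le_pow_left₀ (by linarith) (h2.trans hz1) 2
      have h4 : 33 / 2 * (u * E) ≤ 60 * E * (1 / u) * (S * (S + 1)) := by
        have h5 : 60 * E * (1 / u) * ((S : ℝ) * (S + 1)) = u * E * (60 * (S * (S + 1)) / u ^ 2) := by
          field_simp
        rw [h5, mul_comm (33 / 2 : ℝ)]
        apply mul_le_mul_of_nonneg_left _ (by positivity)
        rw [le_div_iff₀ (by positivity)]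
        nlinarith
      linarith
    linarith
  · have h1 : (2 : ℝ) * K < Rs J := by
      have : 2 * K < Rs J := by omega
      exact_mod_cast this
    have h2 : u - 1 = 2 * K / D := by rw [hudef]; field_simp; ring
    have h3 : u - 1 < Rs J / D := by
      rw [h2]
      exact div_lt_div_of_pos_right h1 hD0
    have h5 : u < 2 := by linarith
    have hJ' : J = 1 := by
      have h7 : (J : ℝ) < 2 := by linarith
      have h8 : J < 2 := by exact_mod_cast h7
      omega
    have hR33 : (Rs J : ℝ) = 33 := by rw [hRJ, hJ']; norm_num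
    rw [hR33] at h3
    have h4 : 2 / (D : ℝ) ≤ E := by
      rw [hE]
      apply div_le_div_of_nonneg_right _ hD0.le
      have : 0 ≤ (K : ℝ) / D := by positivity
      linarith
    have h6 : u - 1 ≤ 33 / 2 * E := by
      have : (33 : ℝ) / D = 33 / 2 * (2 / D) := by ring
      rw [this] at h3
      linarith
    have h := valid_triv (t := 1) le_rfl D (by omega) K (by simp)
    apply h.mono
    rw [hJ']
    unfold Ln
    simp only [Nat.cast_one, div_one]
    have h9 : (1 - 33 / 4 * E) ≤ (2 * 1 + 1 - u) / (1 * (1 + 1)) := by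
      rw [le_div_iff₀ (by norm_num)]
      linarith
    have h10 : (1 - 33 / 4 * E) * (1 + 60 * E) ≤ (2 * 1 + 1 - u) / (1 * (1 + 1)) * (1 + 60 * E) :=
      mul_le_mul_of_nonneg_right h9 (by positivity)
    have h11 : 1 ≤ (1 - 33 / 4 * E) * (1 + 60 * E) := by nlinarith
    linarith

theorem lower_fast {d k n : ℕ} (hd : 1 ≤ d) (hk : 1 ≤ k) (hn : 1 ≤ n) :
    (1 - 64 * errk d k) * rate d k * n ≤ (f n d k : ℝ) := by
  obtain ⟨K, rfl⟩ : ∃ K, k = K + 1 := ⟨k - 1, by omega⟩
  have hr := rate_pos (d := d) (K := K)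
  have hn0 : (0 : ℝ) < n := by exact_mod_cast hn
  rcases le_total 1 (64 * errk d (K + 1)) with h | h
  · have h1 : (1 - 64 * errk d (K + 1)) * rate d (K + 1) * n ≤ 0 := by
      apply mul_nonpos_of_nonpos_of_nonneg _ hn0.le
      exact mul_nonpos_of_nonpos_of_nonneg (by linarith) hr.le
    exact h1.trans (by positivity)
  · set η := errk d (K + 1) with hη
    have hη' : η = ((K : ℝ) / ((d + 1 : ℕ) : ℝ) + 2) / ((d + 1 : ℕ) : ℝ) := by
      rw [hη]; unfold errk; push_cast; ring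
    have hη0 : 0 ≤ η := by rw [hη']; positivity
    have hV := num_fast (D := d + 1) (K := K) (by omega) hη' h
    have h5 := lower_of_valid hd hV hn
    have hinvr := rate_inv (d := d) (K := K)
    set v := Ln ((2 * K + (d + 1)) / (d + 1) : ℕ)
        ((2 * K + ((d + 1 : ℕ) : ℝ)) / ((d + 1 : ℕ) : ℝ)) with hv
    have hf : (0 : ℝ) ≤ (f n d (K + 1) : ℝ) := by positivity
    have h6 : rate d (K + 1) * n ≤ (f n d (K + 1) : ℝ) * (1 + 60 * η) := by
      calc rate d (K + 1) * n ≤ rate d (K + 1) * ((f n d (K + 1) : ℝ) * (v * (1 + 60 * η))) :=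
            mul_le_mul_of_nonneg_left h5 hr.le
        _ = (f n d (K + 1) : ℝ) * (1 + 60 * η) * (v * rate d (K + 1)) := by ring
        _ = _ := by rw [hinvr, mul_one]
    have h7 : (1 - 64 * η) * (1 + 60 * η) ≤ 1 := by nlinarith
    calc (1 - 64 * η) * rate d (K + 1) * n = (1 - 64 * η) * (rate d (K + 1) * n) := by ring
      _ ≤ (1 - 64 * η) * ((f n d (K + 1) : ℝ) * (1 + 60 * η)) :=
          mul_le_mul_of_nonneg_left h6 (by linarith)
      _ = (f n d (K + 1) : ℝ) * ((1 - 64 * η) * (1 + 60 * η)) := by ring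
      _ ≤ (f n d (K + 1) : ℝ) * 1 := mul_le_mul_of_nonneg_left h7 hf
      _ = _ := mul_one _

theorem lower_min {d k n : ℕ} (hd : 1 ≤ d) (hk : 1 ≤ k) (hn : 1 ≤ n) :
    (1 - errm d k) * rate d k * n ≤ (f n d k : ℝ) := by
  unfold errm
  rcases min_choice (64 * (((k : ℝ) - 1) / ((d : ℝ) + 1) + 2) / ((d : ℝ) + 1)) (20 * err d)
    with h | h
  · rw [h]
    have h1 := lower_fast (d := d) (k := k) hd hk hn
    unfold errk at h1
    have e : 64 * (((k : ℝ) - 1) / ((d : ℝ) + 1) + 2) / ((d : ℝ) + 1) =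
        64 * ((((k : ℝ) - 1) / ((d : ℝ) + 1) + 2) / ((d : ℝ) + 1)) := by ring
    rw [e]
    exact h1
  · rw [h]; exact lower hd hk hn

/-- approximate increment inequality for every `n`, all pairs. -/
theorem increment_approx_min {d k n : ℕ} (hd : 1 ≤ d) (hk : 1 ≤ k) (hn : 1 ≤ n) :
    (1 - errm d (k + (d + 1))) * ((f n d k : ℝ) + 2 * n) ≤
      (f n d (k + (d + 1)) : ℝ) + ((d : ℝ) + 1) * ind d k := by
  have hn0 : (0 : ℝ) ≤ n := by positivity
  have hf0 : (0 : ℝ) ≤ (f n d k : ℝ) := by positivity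
  have hf1 : (0 : ℝ) ≤ (f n d (k + (d + 1)) : ℝ) := by positivity
  have hJ0 : (0 : ℝ) ≤ ((d : ℝ) + 1) * ind d k := by positivity
  have he0 : 0 ≤ errm d (k + (d + 1)) := by
    unfold errm err
    apply le_min
    · have : (0 : ℝ) ≤ ((k + (d + 1) : ℕ) : ℝ) - 1 := by
        have : 1 ≤ k + (d + 1) := by omega
        have : (1 : ℝ) ≤ ((k + (d + 1) : ℕ) : ℝ) := by exact_mod_cast this
        linarith
      positivity
    · positivity
  rcases le_total 1 (errm d (k + (d + 1))) with h | h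
  · have : (1 - errm d (k + (d + 1))) * ((f n d k : ℝ) + 2 * n) ≤ 0 :=
      mul_nonpos_of_nonpos_of_nonneg (by linarith) (by linarith)
    linarith
  · have h1 := upper' hd hk hn
    have h2 := lower_min (k := k + (d + 1)) hd (by omega) hn
    have h3 := rate_increment (d := d) hk
    have h4 : (f n d k : ℝ) + 2 * n ≤ rate d (k + (d + 1)) * n + ((d : ℝ) + 1) * ind d k := by
      have : (rate d k + 2) * n ≤ rate d (k + (d + 1)) * n := mul_le_mul_of_nonneg_right h3 hn0
      linarith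
    have h5 := mul_le_mul_of_nonneg_left h4 (show 0 ≤ 1 - errm d (k + (d + 1)) by linarith)
    have h6 : (1 - errm d (k + (d + 1))) * (((d : ℝ) + 1) * ind d k) ≤ ((d : ℝ) + 1) * ind d k :=
      mul_le_of_le_one_left hJ0 (by linarith)
    linarith

/-- the consequence for the constants. -/
theorem increment_min {d k : ℕ} (hd : 1 ≤ d) (hk : 1 ≤ k)
    {C C' : ℝ} (hC : IsRate d k C) (hC' : IsRate d (k + (d + 1)) C') :
    (1 - errm d (k + (d + 1))) * (C + 2) ≤ C' := by
  obtain ⟨B, hB⟩ := hC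
  obtain ⟨B', hB'⟩ := hC'
  set e := errm d (k + (d + 1)) with he
  apply le_of_linear (B := |1 - e| * B + B' + ((d : ℝ) + 1) * ind d k)
  intro n hn
  have h1 := increment_approx_min hd hk hn
  rw [← he] at h1
  have h2 := hB n hn
  have h3 := (abs_le.1 (hB' n hn)).2
  have h4 : (1 - e) * (C * n - f n d k) ≤ |1 - e| * B := by
    calc (1 - e) * (C * n - f n d k) ≤ |(1 - e) * (C * n - f n d k)| := le_abs_self _
      _ = |1 - e| * |(f n d k : ℝ) - C * n| := by rw [abs_mul, abs_sub_comm (C * n)]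
      _ ≤ |1 - e| * B := mul_le_mul_of_nonneg_left h2 (abs_nonneg _)
  have h5 : (1 - e) * (C + 2) * n = (1 - e) * (C * n - f n d k) +
      (1 - e) * ((f n d k : ℝ) + 2 * n) := by ring
  rw [h5]
  linarith

lemma rate_eq' {d K : ℕ} (x : ℝ) (hx : x = (2 * (K : ℝ)) / ((d : ℝ) + 1) + 1 - ind d (K + 1)) :
    rate d (K + 1) = (ind d (K + 1) : ℝ) * (ind d (K + 1) + 1) / (ind d (K + 1) + 1 - x) := by
  have h2 : 2 * (K : ℝ) + (d + 1) < ((ind d (K + 1) : ℝ) + 1) * ((d : ℝ) + 1) := by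
    exact_mod_cast lt_ind
  have hJ1 : (1 : ℝ) ≤ ind d (K + 1) := by exact_mod_cast ind_pos
  have hd0 : (0 : ℝ) < (d : ℝ) + 1 := by positivity
  set J : ℝ := (ind d (K + 1) : ℝ) with hJd
  have hKx : 2 * (K : ℝ) = (x + J - 1) * ((d : ℝ) + 1) := by rw [hx]; field_simp; ring
  have hx1 : x < 1 := by
    have : 0 < (1 - x) * ((d : ℝ) + 1) := by nlinarith
    have := (mul_pos_iff_of_pos_right hd0).1 this
    linarith
  unfold rate
  rw [← hJd]
  push_cast
  have e : 2 * (((d : ℝ) + 1) * J - ((K : ℝ) + 1 - 1)) = ((d : ℝ) + 1) * (J + 1 - x) := by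
    have : 2 * (((d : ℝ) + 1) * J - ((K : ℝ) + 1 - 1)) = 2 * ((d : ℝ) + 1) * J - 2 * K := by
      ring
    rw [this, hKx]; ring
  rw [e]
  have : J + 1 - x ≠ 0 := by linarith
  field_simp

/-- the increment inequality for every `n`, away from the ties. -/
theorem increment_fast {d k : ℕ} (hd : 1 ≤ d) (hk : 1 ≤ k) {J r : ℕ} (hJ : J = ind d k)
    (hr : r = 2 * (k - 1) % (d + 1))
    (hoff : (J + 1) * (J + 2) * (6 * J ^ 2 + 40 * J + 67) * (d + 1) ≤ 2 * r * (d + 1 - r))
    {n : ℕ} (hn : 1 ≤ n) :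
    (f n d k : ℝ) + 2 * n ≤ (f n d (k + (d + 1)) : ℝ) + ((d : ℝ) + 1) * J := by
  obtain ⟨K, rfl⟩ : ∃ K, k = K + 1 := ⟨k - 1, by omega⟩
  rw [Nat.add_sub_cancel] at hr
  set D := d + 1 with hD
  have hD0 : 0 < D := by omega
  have hrD : r < D := by rw [hr]; exact Nat.mod_lt _ hD0
  have hJ1 : 1 ≤ J := by rw [hJ]; exact ind_pos
  have hsum : J * D + r = 2 * K + D := by
    rw [hJ]
    unfold ind
    rw [Nat.add_sub_cancel, hr, ← hD, add_mul, one_mul]
    have := Nat.div_add_mod' (2 * K) D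
    omega
  have hRs : Rs (J + 2) = 6 * J ^ 2 + 40 * J + 67 := by unfold Rs; ring
  rw [← hRs] at hoff
  have hRr : Rs (J + 2) ≤ r := by
    by_contra hcon
    push Not at hcon
    have h1 : 2 * r * (D - r) ≤ 2 * r * D := Nat.mul_le_mul_left _ (Nat.sub_le _ _)
    have h2 : (J + 1) * (J + 2) * Rs (J + 2) * D ≤ 2 * r * D := hoff.trans h1
    have h3 : (J + 1) * (J + 2) * Rs (J + 2) ≤ 2 * r := Nat.le_of_mul_le_mul_right h2 hD0
    have h4 : 6 ≤ (J + 1) * (J + 2) := by nlinarith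
    have h5 : 6 * Rs (J + 2) ≤ (J + 1) * (J + 2) * Rs (J + 2) := Nat.mul_le_mul_right _ h4
    omega
  have hV := valid_reserve (D := D) (K := K + D) (S := J + 2) (m0 := r - Rs (J + 2)) (by omega)
    (by omega) (by omega) (by
      have e : (J + 2) * D = J * D + 2 * D := by ring
      rw [e]
      omega)
  have h5 := lower_of_valid hd hV hn
  have e1 : K + 1 + D = K + D + 1 := by ring
  rw [e1]
  have h6 := upper' (k := K + 1) hd (by omega) hn
  rw [← hJ] at h6
  set f' : ℝ := (f n d (K + D + 1) : ℝ) with hf'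
  have hf0 : 0 ≤ f' := by rw [hf']; positivity
  have hn0 : (0 : ℝ) ≤ n := by positivity
  have hDr : (D : ℝ) = (d : ℝ) + 1 := by rw [hD]; push_cast; ring
  have hDpos : (0 : ℝ) < D := by exact_mod_cast hD0
  have hJr : (1 : ℝ) ≤ J := by exact_mod_cast hJ1
  set x : ℝ := (r : ℝ) / D with hx
  set ρ : ℝ := (Rs (J + 2) : ℝ) / D with hρ
  have hρ0 : 0 ≤ ρ := by rw [hρ]; positivity
  have hx0 : 0 ≤ x := by rw [hx]; positivity
  have hx1 : x < 1 := by
    rw [hx, div_lt_one hDpos]; exact_mod_cast hrD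
  have hxd : x = (2 * (K : ℝ)) / ((d : ℝ) + 1) + 1 - ind d (K + 1) := by
    rw [← hJ, ← hDr, hx]
    have : (J : ℝ) * D + r = 2 * K + D := by exact_mod_cast hsum
    have h8 : (r : ℝ) = 2 * K + D - J * D := by linarith
    rw [h8]
    field_simp
  have hrate := rate_eq' x hxd
  rw [← hJ] at hrate
  -- the value
  have hval : XX (J + 2) D (r - Rs (J + 2)) / D =
      ((J : ℝ) + 3 - x + ρ) / (((J : ℝ) + 2) * (J + 3)) := by
    unfold XX
    rw [Nat.cast_sub hRr, hx, hρ]
    push_cast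
    have h1 : (J : ℝ) + 2 ≠ 0 := by positivity
    have h2 : (J : ℝ) + 2 + 1 ≠ 0 := by positivity
    have h3 : (J : ℝ) + 3 ≠ 0 := by positivity
    field_simp
    ring
  rw [hval] at h5
  -- the inequality
  have hkey : ((J : ℝ) + 1) * (J + 2) * ρ ≤ 2 * x * (1 - x) := by
    have h1 : (((J + 1) * (J + 2) * Rs (J + 2) * D : ℕ) : ℝ) ≤ ((2 * r * (D - r) : ℕ) : ℝ) := by
      exact_mod_cast hoff
    push_cast at h1
    rw [Nat.cast_sub hrD.le] at h1
    have h2 : ((J : ℝ) + 1) * (J + 2) * ρ = ((J : ℝ) + 1) * (J + 2) * Rs (J + 2) * D / D ^ 2 := by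
      rw [hρ]; field_simp
    have h3 : 2 * x * (1 - x) = 2 * r * ((D : ℝ) - r) / D ^ 2 := by
      rw [hx]; field_simp
    rw [h2, h3]
    exact div_le_div_of_nonneg_right h1 (by positivity)
  have ha : 0 < (J : ℝ) + 1 - x := by linarith
  have hmain : (rate d (K + 1) + 2) * (((J : ℝ) + 3 - x + ρ) / (((J : ℝ) + 2) * (J + 3))) ≤ 1 := by
    have e2 : (rate d (K + 1) + 2) * (((J : ℝ) + 3 - x + ρ) / (((J : ℝ) + 2) * (J + 3))) =
        (((J : ℝ) * (J + 1) + 2 * (J + 1 - x)) * (J + 3 - x + ρ)) /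
          ((J + 1 - x) * ((J + 2) * (J + 3))) := by
      rw [hrate]
      have h1 : (J : ℝ) + 1 - x ≠ 0 := ha.ne'
      field_simp
    rw [e2, div_le_one (by positivity)]
    have h7 : ((J : ℝ) * (J + 1) + 2 * (J + 1 - x)) * ρ ≤ ((J : ℝ) + 1) * (J + 2) * ρ := by
      apply mul_le_mul_of_nonneg_right _ hρ0
      nlinarith
    nlinarith
  have h9 : (rate d (K + 1) + 2) * n ≤ f' := by
    have hr0 := rate_pos (d := d) (K := K)
    calc (rate d (K + 1) + 2) * n ≤ (rate d (K + 1) + 2) *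
          (f' * (((J : ℝ) + 3 - x + ρ) / (((J : ℝ) + 2) * (J + 3)))) :=
          mul_le_mul_of_nonneg_left h5 (by linarith)
      _ = f' * ((rate d (K + 1) + 2) * (((J : ℝ) + 3 - x + ρ) / (((J : ℝ) + 2) * (J + 3)))) := by
          ring
      _ ≤ f' * 1 := mul_le_mul_of_nonneg_left hmain hf0
      _ = f' := mul_one _
  linarith

/-- the increment inequality for the constants, away from the ties. -/
theorem increment_off {d k : ℕ} (hd : 1 ≤ d) (hk : 1 ≤ k)
    (hoff : (ind d k + 1) * (ind d k + 2) * (6 * ind d k ^ 2 + 40 * ind d k + 67) * (d + 1) ≤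
      2 * (2 * (k - 1) % (d + 1)) * (d + 1 - 2 * (k - 1) % (d + 1)))
    {C C' : ℝ} (hC : IsRate d k C) (hC' : IsRate d (k + (d + 1)) C') : C + 2 ≤ C' := by
  obtain ⟨B, hB⟩ := hC
  obtain ⟨B', hB'⟩ := hC'
  apply le_of_linear (B := B + B' + ((d : ℝ) + 1) * ind d k)
  intro n hn
  have h1 := increment_fast hd hk rfl rfl hoff hn
  have h2 := (abs_le.1 (hB n hn)).1
  have h3 := (abs_le.1 (hB' n hn)).2
  linarith

end Pool.Agent.Helper23.CE
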