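import Pool.Agent.Helper23.CE.Rec

/-!
# The recursion with two slices
-/

set_option autoImplicit false

namespace Pool.Agent.Helper23.CE

open Finset

lemma sum_countP_le_mul {α ι : Type*} (s : Finset ι) (P : ι → α → Prop)
    [∀ i, DecidablePred (P i)] (L : Multiset α)
    (Q : α → Prop) [DecidablePred Q] (m : ℕ)
    (h : ∀ p ∈ L, (s.filter (fun i => P i p)).card ≤ if Q p then m else 0) :
    ∑ i ∈ s, L.countP (P i) ≤ m * L.countP Q := by
  induction L using Multiset.induction_on with
  | empty => simp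
  | cons a L ih =>
    simp only [Multiset.countP_cons]
    rw [sum_add_distrib, mul_add]
    have h1 := ih (fun p hp => h p (Multiset.mem_cons_of_mem hp))
    have h2 := h a (Multiset.mem_cons_self a L)
    rw [card_filter] at h2
    have h3 : (if Q a then m else 0) = m * (if Q a then 1 else 0) := by
      split_ifs <;> simp
    rw [h3] at h2
    omega

/-- constant outside the two coordinates `i`, `i.succAbove j`. -/
def Par2 {D : ℕ} (i : Fin (D + 2)) (j : Fin (D + 1)) (p : (Fin (D + 2) → ℝ) × ℝ) : Prop :=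
  ∀ a b : Fin D, p.1 (i.succAbove (j.succAbove a)) = p.1 (i.succAbove (j.succAbove b))

lemma par_res {D : ℕ} (i : Fin (D + 2)) (j : Fin (D + 1)) (u : ℕ)
    (p : (Fin (D + 2) → ℝ) × ℝ) : Par j (res i u p) ↔ Par2 i j p := Iff.rfl

/-- a cut with the two coordinates `i`, `i.succAbove j`. -/
def Cut {D : ℕ} (i : Fin (D + 2)) (j : Fin (D + 1)) (p : (Fin (D + 2) → ℝ) × ℝ) : Prop :=
  ¬ Par i p ∧ ¬ Par (i.succAbove j) p ∧ Par2 i j p

lemma par_iff {D : ℕ} (i : Fin (D + 1)) (p : (Fin (D + 1) → ℝ) × ℝ) :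
    Par i p ↔ ∀ a b, a ≠ i → b ≠ i → p.1 a = p.1 b := by
  constructor
  · intro h a b ha hb
    obtain ⟨a', rfl⟩ := Fin.exists_succAbove_eq ha
    obtain ⟨b', rfl⟩ := Fin.exists_succAbove_eq hb
    exact h a' b'
  · intro h a b
    exact h _ _ (Fin.succAbove_ne i a) (Fin.succAbove_ne i b)

lemma par2_iff {D : ℕ} (i : Fin (D + 2)) (j : Fin (D + 1)) (p : (Fin (D + 2) → ℝ) × ℝ) :
    Par2 i j p ↔ ∀ a b, a ≠ i → a ≠ i.succAbove j → b ≠ i → b ≠ i.succAbove j →
      p.1 a = p.1 b := by
  constructor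
  · intro h a b ha ha' hb hb'
    obtain ⟨a', rfl⟩ := Fin.exists_succAbove_eq ha
    obtain ⟨b', rfl⟩ := Fin.exists_succAbove_eq hb
    have h1 : a' ≠ j := fun he => ha' (by rw [he])
    have h2 : b' ≠ j := fun he => hb' (by rw [he])
    obtain ⟨a'', rfl⟩ := Fin.exists_succAbove_eq h1
    obtain ⟨b'', rfl⟩ := Fin.exists_succAbove_eq h2
    exact h a'' b''
  · intro h a b
    apply h
    · exact Fin.succAbove_ne i _
    · intro he
      exact Fin.succAbove_ne j a (Fin.succAbove_right_injective he)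
    · exact Fin.succAbove_ne i _
    · intro he
      exact Fin.succAbove_ne j b (Fin.succAbove_right_injective he)

/-- a coordinate outside four given ones. -/
lemma exists_out {D : ℕ} (hD : 3 ≤ D) (a b c d : Fin (D + 2)) :
    ∃ x : Fin (D + 2), x ≠ a ∧ x ≠ b ∧ x ≠ c ∧ x ≠ d := by
  classical
  have hcard : (({a, b, c, d} : Finset (Fin (D + 2)))).card <
      (univ : Finset (Fin (D + 2))).card := by
    rw [card_univ, Fintype.card_fin]
    have : (({a, b, c, d} : Finset (Fin (D + 2)))).card ≤ 4 := card_le_four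
    omega
  obtain ⟨x, -, hx⟩ := exists_mem_notMem_of_card_lt_card hcard
  simp only [mem_insert, mem_singleton, not_or] at hx
  exact ⟨x, hx⟩

/-- the two coordinates of a cut are determined. -/
lemma cut_unique {D : ℕ} (hD : 3 ≤ D) {i i' : Fin (D + 2)} {j j' : Fin (D + 1)}
    {p : (Fin (D + 2) → ℝ) × ℝ} (h : Cut i j p) (h' : Cut i' j' p) :
    (i' = i ∨ i' = i.succAbove j) := by
  by_contra hcon
  push Not at hcon
  obtain ⟨h1, h2, h3⟩ := h
  obtain ⟨h1', h2', h3'⟩ := h'
  rw [par2_iff] at h3 h3'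
  obtain ⟨x, hx1, hx2, hx3, hx4⟩ := exists_out hD i (i.succAbove j) i' (i'.succAbove j')
  -- all coordinates but `i'.succAbove j'` are equal
  apply h2'
  rw [par_iff]
  have key : ∀ a, a ≠ i'.succAbove j' → p.1 a = p.1 x := by
    intro a ha
    by_cases hai : a = i'
    · rw [hai]
      exact h3 i' x hcon.1 hcon.2 hx1 hx2
    · exact h3' a x hai ha hx3 hx4
  intro a b ha hb
  rw [key a ha, key b hb]

/-- a cut is not parallel to any facet. -/
lemma cut_not_par {D : ℕ} (hD : 3 ≤ D) {i : Fin (D + 2)} {j : Fin (D + 1)}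
    {p : (Fin (D + 2) → ℝ) × ℝ} (h : Cut i j p) (k : Fin (D + 2)) : ¬ Par k p := by
  intro hk
  obtain ⟨h1, h2, h3⟩ := h
  rw [par2_iff] at h3
  by_cases hki : k = i
  · rw [hki] at hk; exact h1 hk
  by_cases hkj : k = i.succAbove j
  · rw [hkj] at hk; exact h2 hk
  rw [par_iff] at hk
  obtain ⟨x, hx1, hx2, hx3, -⟩ := exists_out hD i (i.succAbove j) k k
  apply h1
  rw [par_iff]
  have key : ∀ a, p.1 a = p.1 x := by
    intro a
    by_cases ha : a = k
    · rw [ha]; exact h3 k x hki hkj hx1 hx2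
    · exact hk a x ha hx3
  intro a b _ _
  rw [key a, key b]

open Classical in
lemma sum_cut {D : ℕ} (hD : 3 ≤ D) (L : Multiset ((Fin (D + 2) → ℝ) × ℝ)) :
    ∑ i : Fin (D + 2), ∑ j : Fin (D + 1), L.countP (Cut i j) ≤
      2 * L.countP (fun p => ∀ k : Fin (D + 2), ¬ Par k p) := by
  have h1 : ∀ i ∈ (univ : Finset (Fin (D + 2))), ∑ j : Fin (D + 1), L.countP (Cut i j) ≤
      L.countP (fun p => ∃ j, Cut i j p) := by
    intro i _
    apply sum_countP_le
    · intro j _ p _ h
      exact ⟨j, h⟩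
    · intro p _ j _ j' _ h h'
      -- i.succAbove j' ∈ {i, i.succAbove j}
      by_contra hne
      obtain ⟨h1, h2, h3⟩ := h
      obtain ⟨h1', h2', h3'⟩ := h'
      rw [par2_iff] at h3 h3'
      obtain ⟨x, hx1, hx2, hx3, -⟩ := exists_out hD i (i.succAbove j) (i.succAbove j') i
      apply h1
      rw [par_iff]
      have key : ∀ a, a ≠ i → p.1 a = p.1 x := by
        intro a ha
        by_cases hai : a = i.succAbove j
        · apply h3' a x ha _ hx1 hx3
          rw [hai]
          intro he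
          exact hne (Fin.succAbove_right_injective he)
        · exact h3 a x ha hai hx1 hx2
      intro a b ha hb
      rw [key a ha, key b hb]
  refine (sum_le_sum h1).trans ?_
  apply sum_countP_le_mul
  intro p _
  by_cases hex : ∃ i j, Cut (D := D) i j p
  · obtain ⟨i, j, h⟩ := hex
    rw [if_pos (fun k => cut_not_par hD h k)]
    have hsub : (univ.filter (fun i' : Fin (D + 2) => ∃ j', Cut i' j' p)) ⊆
        {i, i.succAbove j} := by
      intro i' hi'
      rw [mem_filter] at hi'
      obtain ⟨-, j', h'⟩ := hi'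
      rw [mem_insert, mem_singleton]
      exact cut_unique hD h h'
    exact (card_le_card hsub).trans card_le_two
  · rw [card_eq_zero.2]
    · exact Nat.zero_le _
    · rw [filter_eq_empty_iff]
      intro i _ hi
      exact hex ⟨i, hi⟩

/-- the level, in a slice, of a plane parallel to a facet. -/
lemma lev_of_res {D : ℕ} (hD : 3 ≤ D) {n u v : ℕ} (hun : u ≤ n) {i : Fin (D + 2)}
    {j : Fin (D + 1)} {p : (Fin (D + 2) → ℝ) × ℝ} (hp : Par (i.succAbove j) p)
    (h : Lev (n - u) j v (res i u p)) : Lev n (i.succAbove j) v p := by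
  have hi : i ≠ i.succAbove j := (Fin.succAbove_ne i j).symm
  rw [par_iff] at hp
  refine ⟨(par_iff _ _).2 hp, ?_⟩
  intro k
  have h2 := h.2 ⟨0, by omega⟩
  unfold res at h2
  simp only at h2
  rw [Nat.cast_sub hun] at h2
  have e1 : p.1 (i.succAbove (j.succAbove ⟨0, by omega⟩)) = p.1 i := by
    apply hp
    · intro he
      exact Fin.succAbove_ne j _ (Fin.succAbove_right_injective he)
    · exact hi
  have e2 : p.1 ((i.succAbove j).succAbove k) = p.1 i := hp _ _ (Fin.succAbove_ne _ k) hi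
  rw [e1] at h2
  rw [e2]
  linarith

end Pool.Agent.Helper23.CE
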