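import Pool.Agent.Helper23.CE.Sym

/-!
# The slicing recursion
-/

set_option autoImplicit false

namespace Pool.Agent.Helper23.CE

open Finset

lemma countP_le_add {α : Type*} (P Q R : α → Prop) [DecidablePred P] [DecidablePred Q]
    [DecidablePred R] (L : Multiset α)
    (h : ∀ p ∈ L, P p → Q p ∨ R p) : L.countP P ≤ L.countP Q + L.countP R := by
  induction L using Multiset.induction_on with
  | empty => simp
  | cons a L ih =>
    simp only [Multiset.countP_cons]
    have h1 := ih (fun p hp => h p (Multiset.mem_cons_of_mem hp))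
    have h2 : (if P a then 1 else 0) ≤ (if Q a then 1 else 0) + (if R a then 1 else 0) := by
      by_cases hP : P a
      · rw [if_pos hP]
        rcases h a (Multiset.mem_cons_self a L) hP with hQ | hR
        · rw [if_pos hQ]; omega
        · rw [if_pos hR]; omega
      · rw [if_neg hP]; exact Nat.zero_le _
    omega

open Classical in
theorem slice_cover {D n k : ℕ} {L : Multiset ((Fin (D + 1) → ℝ) × ℝ)}
    (hL : SCover (D + 1) n k L) (i : Fin (D + 1)) {u s : ℕ} (hu : u < n)
    (hs : L.countP (Lev n i u) ≤ s) :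
    SCover D (n - u) (k - s) ((L.filter (fun p => ¬ Par i p)).map (res i u)) := by
  constructor
  · intro p' hp'
    obtain ⟨p, hp, rfl⟩ := Multiset.mem_map.1 hp'
    rw [Multiset.mem_filter] at hp
    have h := hp.2
    unfold Par at h
    push Not at h
    obtain ⟨j, j', h⟩ := h
    exact ⟨j, j', h⟩
  · intro Y hY
    have hX : ∑ j, (i.insertNth u Y : Fin (D + 1) → ℕ) j + 1 = n := by
      rw [Fin.sum_univ_succAbove _ i]
      simp only [Fin.insertNth_apply_same, Fin.insertNth_apply_succAbove]
      omega
    have h1 := hL.2 _ hX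
    unfold mult at h1 ⊢
    have h2 := countP_le_add (On (i.insertNth u Y : Fin (D + 1) → ℕ))
      (fun p => On Y (res i u p) ∧ ¬ Par i p) (Lev n i u) L (by
        intro p hp hon
        by_cases hpar : Par i p
        · right
          exact lev_of_on i p hpar Y (by omega) hon
        · left
          exact ⟨(on_res i u p Y).2 hon, hpar⟩)
    have h3 : k - s ≤ L.countP (fun p => On Y (res i u p) ∧ ¬ Par i p) := by omega
    rw [Multiset.countP_map, Multiset.filter_filter, ← Multiset.countP_eq_card_filter]
    refine h3.trans (le_of_eq ?_)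
    congr

theorem valid_rec {D K S : ℕ} (hD : 2 ≤ D) (hS : 1 ≤ S) (hSK : S ≤ K + 1) (b : ℕ → ℝ)
    (hb : ∀ s < S, Valid D (K - s) (b s)) (hb0 : ∀ s < S, 0 ≤ b s) (B : ℝ)
    (h1 : (∑ s ∈ range S, b s) / S ≤ B)
    (h2 : (D : ℝ) * ((∑ s ∈ range S, b s) / S) + 1 / S ≤ (D + 1) * B) : Valid (D + 1) K B := by
  classical
  intro n L hL
  have hsum : ∑ i : Fin (D + 1), L.countP (Par i) ≤ Multiset.card L :=
    (sum_countP_le univ (fun i => Par i) L (fun _ => True) (fun _ _ _ _ _ => trivial)
      (fun p hp i _ j _ hi hj => par_excl hD (hL.1 p hp) hi hj)).trans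
      (Multiset.countP_le_card _ _)
  obtain ⟨i, hi⟩ : ∃ i : Fin (D + 1), (D + 1) * L.countP (Par i) ≤ Multiset.card L := by
    by_contra h
    push Not at h
    have h3 : ∑ i : Fin (D + 1), Multiset.card L <
        ∑ i : Fin (D + 1), (D + 1) * L.countP (Par i) :=
      sum_lt_sum_of_nonempty univ_nonempty (fun i _ => h i)
    rw [← mul_sum, sum_const, card_univ, Fintype.card_fin, smul_eq_mul] at h3
    have := Nat.mul_le_mul_left (D + 1) hsum
    omega
  set x := L.countP (Par i) with hx
  have hν : ∑ u ∈ range n, L.countP (Lev n i u) ≤ x :=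
    sum_countP_le (range n) (fun u => Lev n i u) L (Par i) (fun _ _ _ _ h => h.1)
      (fun p hp u _ v _ hu hv => lev_excl (by omega) (hL.1 p hp) hu hv)
  have hxl : Multiset.card (L.filter (fun p => ¬ Par i p)) + x = Multiset.card L := by
    rw [hx, ← Multiset.countP_eq_card_filter, add_comm]
    exact (Multiset.card_eq_countP_add_countP (Par i) L).symm
  have hsl : ∀ u < n, ∀ s < S, L.countP (Lev n i u) ≤ s →
      (n : ℝ) - u ≤ ((Multiset.card L : ℝ) - x) * b s := by
    intro u hu s hs hle
    have hc := slice_cover hL i hu hle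
    have hc' : SCover D (n - u) (K - s + 1)
        ((L.filter (fun p => ¬ Par i p)).map (res i u)) := hc.mono (by omega)
    have h3 := hb s hs _ _ hc'
    rw [Multiset.card_map] at h3
    have e1 : ((n - u : ℕ) : ℝ) = (n : ℝ) - u := by rw [Nat.cast_sub (by omega)]
    have e2 : (Multiset.card (L.filter (fun p => ¬ Par i p)) : ℝ) =
        (Multiset.card L : ℝ) - x := by
      rw [← hxl]; push_cast; ring
    rw [e1, e2] at h3
    exact h3
  have hex : ∀ s : ℕ, ∃ u, n ≤ u ∨ L.countP (Lev n i u) ≤ s := fun s => ⟨n, Or.inl le_rfl⟩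
  set U : ℕ → ℕ := fun s => Nat.find (hex s) with hU
  have hxl' : (0 : ℝ) ≤ (Multiset.card L : ℝ) - x := by
    have : x ≤ Multiset.card L := by omega
    have : (x : ℝ) ≤ (Multiset.card L : ℝ) := by exact_mod_cast this
    linarith
  have hUn : ∀ s, U s ≤ n := fun s => Nat.find_min' (hex s) (Or.inl le_rfl)
  have hU1 : ∀ s ∈ range S, (n : ℝ) - U s ≤ ((Multiset.card L : ℝ) - x) * b s := by
    intro s hs
    rw [mem_range] at hs
    rcases Nat.find_spec (hex s) with h | h
    · have h4 : U s = n := le_antisymm (hUn s) h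
      rw [h4, sub_self]
      exact mul_nonneg hxl' (hb0 s hs)
    · rcases Nat.lt_or_ge (U s) n with h5 | h5
      · exact hsl (U s) h5 s hs h
      · have h4 : U s = n := le_antisymm (hUn s) h5
        rw [h4, sub_self]
        exact mul_nonneg hxl' (hb0 s hs)
  have hU2 : ∑ s ∈ range S, U s ≤ x := by
    refine le_trans ?_ hν
    have e : ∀ s ∈ range S, U s = ∑ u ∈ range n, if u < U s then 1 else 0 := by
      intro s _
      rw [← card_filter]
      have : (range n).filter (fun u => u < U s) = range (U s) := by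
        ext u
        rw [mem_filter, mem_range, mem_range]
        have := hUn s
        constructor
        · rintro ⟨_, h⟩; exact h
        · intro h; exact ⟨by omega, h⟩
      rw [this, card_range]
    rw [sum_congr rfl e, sum_comm]
    apply sum_le_sum
    intro u _
    rw [← card_filter]
    have hsub : (range S).filter (fun s => u < U s) ⊆ range (L.countP (Lev n i u)) := by
      intro s hs
      rw [mem_filter] at hs
      rw [mem_range]
      have h6 := Nat.find_min (hex s) hs.2
      push Not at h6
      exact h6.2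
    exact (card_le_card hsub).trans (by rw [card_range])
  have hSr : (0 : ℝ) < S := by exact_mod_cast hS
  have h3 := sum_le_sum hU1
  rw [← mul_sum, sum_sub_distrib, sum_const, card_range, nsmul_eq_mul] at h3
  have h4 : ∑ s ∈ range S, (U s : ℝ) ≤ (x : ℝ) := by exact_mod_cast hU2
  set A : ℝ := (∑ s ∈ range S, b s) / S with hA
  have hA' : ∑ s ∈ range S, b s = A * S := by rw [hA]; field_simp
  rw [hA'] at h3
  set l : ℝ := (Multiset.card L : ℝ) with hl
  have h5 : (n : ℝ) ≤ (l - x) * A + x * (1 / S) := by
    have : (S : ℝ) * n ≤ (S : ℝ) * ((l - x) * A + x * (1 / S)) := by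
      have e : (S : ℝ) * ((l - x) * A + x * (1 / S)) = (l - x) * (A * S) + x := by
        field_simp
      rw [e]; linarith
    exact le_of_mul_le_mul_left this hSr
  have hx0 : (0 : ℝ) ≤ x := by positivity
  have hl0 : (0 : ℝ) ≤ l := by rw [hl]; positivity
  rcases le_total (1 / (S : ℝ)) A with h6 | h6
  · have : (x : ℝ) * (1 / S) ≤ x * A := mul_le_mul_of_nonneg_left h6 hx0
    calc (n : ℝ) ≤ l * A := by linarith
      _ ≤ l * B := mul_le_mul_of_nonneg_left h1 hl0
  · have hi' : ((D : ℝ) + 1) * x ≤ l := by rw [hl]; exact_mod_cast hi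
    have hD0 : (0 : ℝ) < (D : ℝ) + 1 := by positivity
    have h7 : ((D : ℝ) + 1) * n ≤ ((D : ℝ) + 1) * (l * B) := by
      have h8 : ((D : ℝ) + 1) * x * (1 / S - A) ≤ l * (1 / S - A) :=
        mul_le_mul_of_nonneg_right hi' (by linarith)
      have h9 : l * ((D : ℝ) * A + 1 / S) ≤ l * ((D + 1) * B) :=
        mul_le_mul_of_nonneg_left h2 hl0
      have h10 : ((D : ℝ) + 1) * n ≤ ((D : ℝ) + 1) * ((l - x) * A + x * (1 / S)) :=
        mul_le_mul_of_nonneg_left h5 hD0.le
      linarith
    exact le_of_mul_le_mul_left h7 hD0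

end Pool.Agent.Helper23.CE
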