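import Pool.Agent.Helper53.TG.Upper

/-!
# Covers of the triangular grid in barycentric coordinates, and the slicing recursion
-/

set_option autoImplicit false

namespace Pool.Agent.Helper23.CE

open Finset

/-- the pair `(a, b)` contains the point `X`: `∑ a i X i = b`. -/
def On {D : ℕ} (X : Fin D → ℕ) (p : (Fin D → ℝ) × ℝ) : Prop := ∑ i, p.1 i * (X i : ℝ) = p.2

open Classical in
/-- multiplicity with which the multiset `L` covers the point `X`. -/
noncomputable def mult {D : ℕ} (L : Multiset ((Fin D → ℝ) × ℝ)) (X : Fin D → ℕ) : ℕ :=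
  L.countP (On X)

/-- `L` is a `k`-cover of the points `X` with natural coordinates of sum `n - 1`. -/
def SCover (D n k : ℕ) (L : Multiset ((Fin D → ℝ) × ℝ)) : Prop :=
  (∀ p ∈ L, ∃ i j, p.1 i ≠ p.1 j) ∧ ∀ X : Fin D → ℕ, ∑ i, X i + 1 = n → k ≤ mult L X

/-- every `(K+1)`-cover has at least `n / b` elements. -/
def Valid (D K : ℕ) (b : ℝ) : Prop :=
  ∀ (n : ℕ) (L : Multiset ((Fin D → ℝ) × ℝ)), SCover D n (K + 1) L →
    (n : ℝ) ≤ (Multiset.card L : ℝ) * b

lemma Valid.mono {D K : ℕ} {b b' : ℝ} (h : Valid D K b) (hb : b ≤ b') : Valid D K b' := by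
  intro n L hL
  exact (h n L hL).trans (mul_le_mul_of_nonneg_left hb (by positivity))

lemma SCover.mono {D n k k' : ℕ} {L : Multiset ((Fin D → ℝ) × ℝ)} (h : SCover D n k L)
    (hk : k' ≤ k) : SCover D n k' L :=
  ⟨h.1, fun X hX => hk.trans (h.2 X hX)⟩

lemma Valid.monoK {D K K' : ℕ} {b : ℝ} (h : Valid D K b) (hK : K ≤ K') : Valid D K' b := by
  intro n L hL
  exact h n L (hL.mono (by omega))

open Classical in
/-- a sum over a finite set of counting functions of pairwise exclusive predicates. -/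
lemma sum_countP_le {α ι : Type*} (s : Finset ι) (P : ι → α → Prop) (L : Multiset α)
    (Q : α → Prop) [DecidablePred Q]
    (hQ : ∀ i ∈ s, ∀ p ∈ L, P i p → Q p)
    (h : ∀ p ∈ L, ∀ i ∈ s, ∀ j ∈ s, P i p → P j p → i = j) :
    ∑ i ∈ s, L.countP (P i) ≤ L.countP Q := by
  induction L using Multiset.induction_on with
  | empty => simp
  | cons a L ih =>
    simp only [Multiset.countP_cons]
    rw [sum_add_distrib]
    have h1 := ih (fun i hi p hp => hQ i hi p (Multiset.mem_cons_of_mem hp))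
      (fun p hp => h p (Multiset.mem_cons_of_mem hp))
    have h2 : ∑ i ∈ s, (if P i a then 1 else 0) ≤ if Q a then 1 else 0 := by
      by_cases hex : ∃ i ∈ s, P i a
      · obtain ⟨i, hi, hPi⟩ := hex
        rw [if_pos (hQ i hi a (Multiset.mem_cons_self a L) hPi)]
        rw [sum_eq_single i]
        · rw [if_pos hPi]
        · intro j hj hji
          rw [if_neg]
          intro hPj
          exact hji (h a (Multiset.mem_cons_self a L) j hj i hi hPj hPi)
        · intro hi'; exact absurd hi hi'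
      · rw [sum_eq_zero]
        · exact Nat.zero_le _
        · intro i hi
          rw [if_neg]
          intro hP
          exact hex ⟨i, hi, hP⟩
    omega

/-- base of the recursion. -/
theorem valid_two (K : ℕ) : Valid 2 K (1 / ((K : ℝ) + 1)) := by
  classical
  intro n L hL
  have h1 : ∀ x ∈ range n, K + 1 ≤ mult L ![x, n - 1 - x] := by
    intro x hx
    rw [mem_range] at hx
    apply hL.2
    rw [Fin.sum_univ_two]
    simp only [Matrix.cons_val_zero, Matrix.cons_val_one]
    omega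
  have h2 : ∑ x ∈ range n, mult L ![x, n - 1 - x] ≤ Multiset.card L := by
    unfold mult
    refine (sum_countP_le (range n) (fun x => On ![x, n - 1 - x]) L (fun _ => True) ?_ ?_).trans
      (Multiset.countP_le_card _ _)
    · intros; trivial
    · intro p hp x hx y hy hx' hy'
      rw [mem_range] at hx hy
      unfold On at hx' hy'
      rw [Fin.sum_univ_two] at hx' hy'
      simp only [Matrix.cons_val_zero, Matrix.cons_val_one] at hx' hy'
      obtain ⟨i, j, hij⟩ := hL.1 p hp
      have hne : p.1 0 ≠ p.1 1 := by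
        intro h
        apply hij
        fin_cases i <;> fin_cases j <;> simp [h]
      have cx : ((n - 1 - x : ℕ) : ℝ) = (n : ℝ) - 1 - x := by
        rw [Nat.cast_sub (by omega), Nat.cast_sub (by omega)]; push_cast; ring
      have cy : ((n - 1 - y : ℕ) : ℝ) = (n : ℝ) - 1 - y := by
        rw [Nat.cast_sub (by omega), Nat.cast_sub (by omega)]; push_cast; ring
      rw [cx] at hx'
      rw [cy] at hy'
      have : (p.1 0 - p.1 1) * ((x : ℝ) - y) = 0 := by linarith
      rcases mul_eq_zero.1 this with h | h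
      · exact absurd (sub_eq_zero.1 h) hne
      · exact_mod_cast sub_eq_zero.1 h
  have h3 : ∑ x ∈ range n, (K + 1) ≤ ∑ x ∈ range n, mult L ![x, n - 1 - x] := sum_le_sum h1
  rw [sum_const, card_range, smul_eq_mul] at h3
  have h5 : (n : ℝ) * ((K : ℝ) + 1) ≤ (Multiset.card L : ℝ) := by exact_mod_cast h3.trans h2
  rw [mul_one_div, le_div_iff₀ (by positivity)]
  exact h5

/-- all coefficients but the `i`-th are equal. -/
def Par {D : ℕ} (i : Fin (D + 1)) (p : (Fin (D + 1) → ℝ) × ℝ) : Prop :=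
  ∀ j j' : Fin D, p.1 (i.succAbove j) = p.1 (i.succAbove j')

lemma par_excl {D : ℕ} (hD : 2 ≤ D) {p : (Fin (D + 1) → ℝ) × ℝ} (hp : ∃ i j, p.1 i ≠ p.1 j)
    {i j : Fin (D + 1)} (hi : Par i p) (hj : Par j p) : i = j := by
  by_contra hij
  have hi' : ∀ a b : Fin (D + 1), a ≠ i → b ≠ i → p.1 a = p.1 b := by
    intro a b ha hb
    obtain ⟨a', rfl⟩ := Fin.exists_succAbove_eq ha
    obtain ⟨b', rfl⟩ := Fin.exists_succAbove_eq hb
    exact hi a' b'
  have hj' : ∀ a b : Fin (D + 1), a ≠ j → b ≠ j → p.1 a = p.1 b := by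
    intro a b ha hb
    obtain ⟨a', rfl⟩ := Fin.exists_succAbove_eq ha
    obtain ⟨b', rfl⟩ := Fin.exists_succAbove_eq hb
    exact hj a' b'
  obtain ⟨c, hc⟩ : ∃ c : Fin (D + 1), c ≠ i ∧ c ≠ j := by
    have hcard : (({i, j} : Finset (Fin (D + 1)))).card < (univ : Finset (Fin (D + 1))).card := by
      rw [card_univ, Fintype.card_fin]
      exact (card_le_two).trans_lt (by omega)
    obtain ⟨c, -, hc⟩ := exists_mem_notMem_of_card_lt_card hcard
    rw [mem_insert, mem_singleton, not_or] at hc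
    exact ⟨c, hc⟩
  have hall : ∀ a, p.1 a = p.1 c := by
    intro a
    by_cases ha : a = i
    · subst ha
      exact hj' a c hij hc.2
    · exact hi' a c ha hc.1
  obtain ⟨a, b, hab⟩ := hp
  exact hab ((hall a).trans (hall b).symm)

/-- restriction to the slice `X i = u`. -/
def res {D : ℕ} (i : Fin (D + 1)) (u : ℕ) (p : (Fin (D + 1) → ℝ) × ℝ) : (Fin D → ℝ) × ℝ :=
  (fun j => p.1 (i.succAbove j), p.2 - p.1 i * u)

lemma on_res {D : ℕ} (i : Fin (D + 1)) (u : ℕ) (p : (Fin (D + 1) → ℝ) × ℝ) (Y : Fin D → ℕ) :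
    On Y (res i u p) ↔ On (i.insertNth u Y : Fin (D + 1) → ℕ) p := by
  unfold On res
  rw [Fin.sum_univ_succAbove _ i]
  simp only [Fin.insertNth_apply_same, Fin.insertNth_apply_succAbove]
  constructor
  · intro h; linarith
  · intro h; linarith

/-- a plane parallel to the facet `i`, at level `u`. -/
def Lev {D : ℕ} (n : ℕ) (i : Fin (D + 1)) (u : ℕ) (p : (Fin (D + 1) → ℝ) × ℝ) : Prop :=
  Par i p ∧ ∀ j : Fin D, p.2 = p.1 i * u + p.1 (i.succAbove j) * ((n : ℝ) - 1 - u)

lemma lev_of_on {D : ℕ} {n u : ℕ} (i : Fin (D + 1)) (p : (Fin (D + 1) → ℝ) × ℝ) (hp : Par i p)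
    (Y : Fin D → ℕ) (hY : ∑ j, Y j + 1 + u = n)
    (h : On (i.insertNth u Y : Fin (D + 1) → ℕ) p) : Lev n i u p := by
  refine ⟨hp, ?_⟩
  intro j
  unfold On at h
  rw [Fin.sum_univ_succAbove _ i] at h
  simp only [Fin.insertNth_apply_same, Fin.insertNth_apply_succAbove] at h
  rw [← h]
  congr 1
  have : ∀ j', p.1 (i.succAbove j') * (Y j' : ℝ) = p.1 (i.succAbove j) * (Y j' : ℝ) := by
    intro j'; rw [hp j' j]
  rw [sum_congr rfl (fun j' _ => this j'), ← mul_sum]
  congr 1
  have h2 : ((∑ j, Y j : ℕ) : ℝ) + 1 + u = n := by exact_mod_cast hY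
  push_cast at h2
  linarith

lemma lev_excl {D : ℕ} (hD : 1 ≤ D) {n : ℕ} {i : Fin (D + 1)} {p : (Fin (D + 1) → ℝ) × ℝ}
    (hp : ∃ i j, p.1 i ≠ p.1 j) {u v : ℕ} (hu : Lev n i u p) (hv : Lev n i v p) : u = v := by
  have h1 := hu.2 ⟨0, by omega⟩
  have h2 := hv.2 ⟨0, by omega⟩
  have hne : p.1 i ≠ p.1 (i.succAbove ⟨0, by omega⟩) := by
    intro h
    obtain ⟨a, b, hab⟩ := hp
    have hall : ∀ a, p.1 a = p.1 i := by
      intro a
      by_cases ha : a = i
      · rw [ha]
      · obtain ⟨a', rfl⟩ := Fin.exists_succAbove_eq ha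
        rw [h]
        exact hu.1 _ _
    exact hab ((hall a).trans (hall b).symm)
  have : (p.1 i - p.1 (i.succAbove ⟨0, by omega⟩)) * ((u : ℝ) - v) = 0 := by linarith
  rcases mul_eq_zero.1 this with h | h
  · exact absurd (sub_eq_zero.1 h) hne
  · exact_mod_cast sub_eq_zero.1 h

end Pool.Agent.Helper23.CE
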