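import Pool.Agent.Helper23.CE.Pair

/-!
# The recursion with two slices, main part
-/

set_option autoImplicit false

namespace Pool.Agent.Helper23.CE

open Finset

lemma sum_countP_le' {α ι : Type*} (s : Finset ι) (P : ι → α → Prop)
    [∀ i, DecidablePred (P i)] (L : Multiset α) (Q : α → Prop) [DecidablePred Q]
    (hQ : ∀ i ∈ s, ∀ p ∈ L, P i p → Q p)
    (h : ∀ p ∈ L, ∀ i ∈ s, ∀ j ∈ s, P i p → P j p → i = j) :
    ∑ i ∈ s, L.countP (P i) ≤ L.countP Q := by
  have h1 := sum_countP_le s P L Q hQ h
  convert h1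

lemma sum_first (n S : ℕ) (ν : ℕ → ℕ) (U : ℕ → ℕ)
    (hU : ∀ s < S, ∀ u < U s, u < n ∧ s < ν u) :
    ∑ s ∈ range S, U s ≤ ∑ u ∈ range n, ν u := by
  have e : ∀ s ∈ range S, U s ≤ ∑ u ∈ range n, if u < U s then 1 else 0 := by
    intro s hs
    rw [mem_range] at hs
    rw [← card_filter]
    have : range (U s) ⊆ (range n).filter (fun u => u < U s) := by
      intro u hu
      rw [mem_range] at hu
      rw [mem_filter, mem_range]
      exact ⟨(hU s hs u hu).1, hu⟩
    have := card_le_card this
    rwa [card_range] at this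
  refine (sum_le_sum e).trans ?_
  rw [sum_comm]
  apply sum_le_sum
  intro u _
  rw [← card_filter]
  have hsub : (range S).filter (fun s => u < U s) ⊆ range (ν u) := by
    intro s hs
    rw [mem_filter, mem_range] at hs
    rw [mem_range]
    exact (hU s hs.1 u hs.2).2
  exact (card_le_card hsub).trans (by rw [card_range])

lemma sum_second (n S c : ℕ) (ν : ℕ → ℕ) (κ : ℕ → ℕ → ℕ) (V : ℕ → ℕ)
    (hκ : ∀ s < S, ∑ v ∈ range n, κ s v ≤ c)
    (hV : ∀ s < S, ∀ v < V s, v < n ∧ (S - 1 - s < ν v ∨ 1 ≤ κ s v)) :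
    ∑ s ∈ range S, V s ≤ ∑ v ∈ range n, ν v + S * c := by
  have e : ∀ s ∈ range S, V s ≤ ∑ v ∈ range n, (if S - 1 - s < ν v then 1 else 0) + c := by
    intro s hs
    rw [mem_range] at hs
    have h1 : V s ≤ ∑ v ∈ range n, if v < V s then 1 else 0 := by
      rw [← card_filter]
      have : range (V s) ⊆ (range n).filter (fun u => u < V s) := by
        intro u hu
        rw [mem_range] at hu
        rw [mem_filter, mem_range]
        exact ⟨(hV s hs u hu).1, hu⟩
      have := card_le_card this
      rwa [card_range] at this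
    have h2 : ∑ v ∈ range n, (if v < V s then 1 else 0) ≤
        ∑ v ∈ range n, ((if S - 1 - s < ν v then 1 else 0) + κ s v) := by
      apply sum_le_sum
      intro v _
      by_cases hv : v < V s
      · rw [if_pos hv]
        rcases (hV s hs v hv).2 with h | h
        · rw [if_pos h]; omega
        · omega
      · rw [if_neg hv]; exact Nat.zero_le _
    rw [sum_add_distrib] at h2
    have h3 := hκ s hs
    omega
  refine (sum_le_sum e).trans ?_
  rw [sum_add_distrib, sum_const, card_range, smul_eq_mul]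
  apply Nat.add_le_add_right
  rw [sum_comm]
  apply sum_le_sum
  intro v _
  rw [sum_range_reflect (fun s => if s < ν v then 1 else 0) S]
  rw [← card_filter]
  have hsub : (range S).filter (fun s => s < ν v) ⊆ range (ν v) := by
    intro s hs
    rw [mem_filter] at hs
    rw [mem_range]
    exact hs.2
  exact (card_le_card hsub).trans (by rw [card_range])

open Classical in
lemma card_split {D : ℕ} (hD : 3 ≤ D) (i : Fin (D + 2)) (j : Fin (D + 1))
    (L : Multiset ((Fin (D + 2) → ℝ) × ℝ)) (hL : ∀ p ∈ L, ∃ a b, p.1 a ≠ p.1 b) :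
    L.countP (Par i) + L.countP (Par (i.succAbove j)) + L.countP (Cut i j) +
      L.countP (fun p => ¬ Par i p ∧ ¬ Par2 i j p) = Multiset.card L := by
  induction L using Multiset.induction_on with
  | empty => simp
  | cons p L ih =>
    simp only [Multiset.countP_cons, Multiset.card_cons]
    have h1 := ih (fun q hq => hL q (Multiset.mem_cons_of_mem hq))
    have hp := hL p (Multiset.mem_cons_self p L)
    have hne : i ≠ i.succAbove j := (Fin.succAbove_ne i j).symm
    have h2 : (if Par i p then 1 else 0) + (if Par (i.succAbove j) p then 1 else 0) +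
        (if Cut i j p then 1 else 0) + (if ¬ Par i p ∧ ¬ Par2 i j p then 1 else 0) = 1 := by
      by_cases a : Par i p
      · have b : ¬ Par (i.succAbove j) p := fun b => hne (par_excl (by omega) hp a b)
        have c : ¬ Cut i j p := fun c => c.1 a
        have d : ¬ (¬ Par i p ∧ ¬ Par2 i j p) := fun d => d.1 a
        rw [if_pos a, if_neg b, if_neg c, if_neg d]
      · by_cases b : Par (i.succAbove j) p
        · have c : ¬ Cut i j p := fun c => c.2.1 b
          have e : Par2 i j p := by
            rw [par2_iff]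
            rw [par_iff] at b
            intro x y _ hx _ hy
            exact b x y hx hy
          have d : ¬ (¬ Par i p ∧ ¬ Par2 i j p) := fun d => d.2 e
          rw [if_neg a, if_pos b, if_neg c, if_neg d]
        · by_cases e : Par2 i j p
          · have c : Cut i j p := ⟨a, b, e⟩
            have d : ¬ (¬ Par i p ∧ ¬ Par2 i j p) := fun d => d.2 e
            rw [if_neg a, if_neg b, if_pos c, if_neg d]
          · have c : ¬ Cut i j p := fun c => e c.2.2
            have d : (¬ Par i p ∧ ¬ Par2 i j p) := ⟨a, e⟩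
            rw [if_neg a, if_neg b, if_neg c, if_pos d]
    omega

open Classical in
theorem two_slice {D K S n : ℕ} (hD : 3 ≤ D) (hS : 1 ≤ S) (hSK : S ≤ K + 1) {b : ℝ}
    (hb0 : 0 ≤ b) (hb : Valid D (K - (S - 1)) b) {L : Multiset ((Fin (D + 2) → ℝ) × ℝ)}
    (hL : SCover (D + 2) n (K + 1) L) (i : Fin (D + 2)) (j : Fin (D + 1)) :
    (S : ℝ) * n ≤ (L.countP (Par i) : ℝ) + L.countP (Par (i.succAbove j)) +
      S * L.countP (Cut i j) + S * (((Multiset.card L : ℝ) - L.countP (Par i) -
        L.countP (Par (i.succAbove j)) - L.countP (Cut i j)) * b) := by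
  have hsplit := card_split hD i j L hL.1
  set x := L.countP (Par i) with hx
  set x' := L.countP (Par (i.succAbove j)) with hx'
  set c := L.countP (Cut i j) with hc
  set w := L.countP (fun p => ¬ Par i p ∧ ¬ Par2 i j p) with hw
  have hwr : (Multiset.card L : ℝ) - x - x' - c = w := by
    rw [← hsplit]; push_cast; ring
  rw [hwr]
  have hex : ∀ s : ℕ, ∃ u, n ≤ u ∨ L.countP (Lev n i u) ≤ s := fun s => ⟨n, Or.inl le_rfl⟩
  set U : ℕ → ℕ := fun s => Nat.find (hex s) with hU
  have hUspec : ∀ s, n ≤ U s ∨ L.countP (Lev n i (U s)) ≤ s := fun s => Nat.find_spec (hex s)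
  have hUmin : ∀ s, ∀ u < U s, u < n ∧ s < L.countP (Lev n i u) := by
    intro s u hu
    have := Nat.find_min (hex s) hu
    push Not at this
    exact this
  have hUn : ∀ s, U s ≤ n := fun s => Nat.find_min' (hex s) (Or.inl le_rfl)
  have hsumU : ∑ s ∈ range S, U s ≤ x := by
    refine (sum_first n S (fun u => L.countP (Lev n i u)) U (fun s _ => hUmin s)).trans ?_
    exact sum_countP_le (range n) (fun u => Lev n i u) L (Par i) (fun _ _ _ _ h => h.1)
      (fun p hp u _ v _ hu hv => lev_excl (by omega) (hL.1 p hp) hu hv)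
  set L1 : ℕ → Multiset ((Fin (D + 1) → ℝ) × ℝ) := fun s =>
    (L.filter (fun p => ¬ Par i p)).map (res i (U s)) with hL1
  have hex2 : ∀ s : ℕ, ∃ v, n - U s ≤ v ∨ (L1 s).countP (Lev (n - U s) j v) ≤ S - 1 - s :=
    fun s => ⟨n - U s, Or.inl le_rfl⟩
  set W : ℕ → ℕ := fun s => Nat.find (hex2 s) with hW
  have hWspec : ∀ s, n - U s ≤ W s ∨ (L1 s).countP (Lev (n - U s) j (W s)) ≤ S - 1 - s :=
    fun s => Nat.find_spec (hex2 s)
  have hWmin : ∀ s, ∀ v < W s, v < n - U s ∧ S - 1 - s < (L1 s).countP (Lev (n - U s) j v) := by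
    intro s v hv
    have := Nat.find_min (hex2 s) hv
    push Not at this
    exact this
  have hcount : ∀ s v, (L1 s).countP (Lev (n - U s) j v) ≤
      L.countP (Lev n (i.succAbove j) v) +
        L.countP (fun p => Cut i j p ∧ Lev (n - U s) j v (res i (U s) p)) := by
    intro s v
    rw [hL1]
    simp only
    rw [Multiset.countP_map, Multiset.filter_filter, ← Multiset.countP_eq_card_filter]
    apply countP_le_add
    intro p hp h
    by_cases hpar : Par (i.succAbove j) p
    · exact Or.inl (lev_of_res hD (hUn s) hpar h.1)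
    · right
      exact ⟨⟨h.2, hpar, h.1.1⟩, h.1⟩
  have hsumW : ∑ s ∈ range S, W s ≤ x' + S * c := by
    refine (sum_second n S c (fun v => L.countP (Lev n (i.succAbove j) v))
      (fun s v => L.countP (fun p => Cut i j p ∧ Lev (n - U s) j v (res i (U s) p))) W ?_ ?_).trans
      ?_
    · intro s _
      apply sum_countP_le' (range n)
        (fun v p => Cut i j p ∧ Lev (n - U s) j v (res i (U s) p)) L (Cut i j)
      · intro v _ p _ h
        exact h.1
      · intro p hp v _ v' _ h h'
        apply lev_excl (by omega) _ h.2 h'.2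
        have := h.1.1
        unfold Par at this
        push Not at this
        obtain ⟨a, a', haa⟩ := this
        exact ⟨a, a', haa⟩
    · intro s _ v hv
      obtain ⟨h1, h2⟩ := hWmin s v hv
      refine ⟨by omega, ?_⟩
      have h3 := hcount s v
      omega
    · apply Nat.add_le_add_right
      exact sum_countP_le (range n) (fun u => Lev n (i.succAbove j) u) L (Par (i.succAbove j))
        (fun _ _ _ _ h => h.1)
        (fun p hp u _ v _ hu hv => lev_excl (by omega) (hL.1 p hp) hu hv)
  have hw0 : (0 : ℝ) ≤ (w : ℝ) * b := by positivity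
  have hmain : ∀ s ∈ range S, (n : ℝ) - U s - W s ≤ (w : ℝ) * b := by
    intro s hs
    rw [mem_range] at hs
    by_cases hUs : n ≤ U s
    · have : (n : ℝ) ≤ U s := by exact_mod_cast hUs
      have h0 : (0 : ℝ) ≤ W s := by positivity
      linarith
    by_cases hWs : n - U s ≤ W s
    · have h1 : n ≤ U s + W s := by omega
      have : (n : ℝ) ≤ U s + W s := by exact_mod_cast h1
      linarith
    push Not at hUs hWs
    have hc1 : SCover (D + 1) (n - U s) (K + 1 - s) (L1 s) := by
      apply slice_cover hL i hUs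
      rcases hUspec s with h | h
      · omega
      · exact h
    have hc2 := slice_cover hc1 j hWs (s := S - 1 - s) (by
      rcases hWspec s with h | h
      · omega
      · exact h)
    have hc3 := hb _ _ (hc2.mono (show K - (S - 1) + 1 ≤ K + 1 - s - (S - 1 - s) by omega))
    rw [Multiset.card_map] at hc3
    have hcard : Multiset.card ((L1 s).filter (fun p => ¬ Par j p)) = w := by
      rw [hL1]
      simp only
      rw [Multiset.filter_map, Multiset.card_map, Multiset.filter_filter, hw,
        Multiset.countP_eq_card_filter]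
      congr 1
      apply Multiset.filter_congr
      intro p _
      simp only [Function.comp, par_res]
      tauto
    rw [hcard] at hc3
    have e : ((n - U s - W s : ℕ) : ℝ) = (n : ℝ) - U s - W s := by
      rw [Nat.cast_sub (by omega), Nat.cast_sub (by omega)]
    rw [e] at hc3
    exact hc3
  have h1 := sum_le_sum hmain
  rw [sum_sub_distrib, sum_sub_distrib, sum_const, card_range, nsmul_eq_mul, sum_const,
    card_range, nsmul_eq_mul] at h1
  have h2 : ∑ s ∈ range S, (U s : ℝ) ≤ (x : ℝ) := by exact_mod_cast hsumU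
  have h3 : ∑ s ∈ range S, (W s : ℝ) ≤ (x' : ℝ) + S * c := by exact_mod_cast hsumW
  linarith

/-- the recursion with two slices. -/
theorem valid_pair {D K S : ℕ} (hD : 3 ≤ D) (hS : 1 ≤ S) (hSK : S ≤ K + 1) {b M B : ℝ}
    (hb0 : 0 ≤ b) (hb : Valid D (K - (S - 1)) b) (hM0 : 0 ≤ M)
    (h1 : 1 / (S : ℝ) - b ≤ M)
    (h2 : 1 - b ≤ ((D : ℝ) + 1) * M) (hB : b + 2 * M / ((D : ℝ) + 2) ≤ B) :
    Valid (D + 2) K B := by
  classical
  intro n L hL
  have hSr : (0 : ℝ) < S := by exact_mod_cast hS
  set l : ℝ := (Multiset.card L : ℝ) with hl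
  have hl0 : 0 ≤ l := by rw [hl]; positivity
  -- the sums
  set X : ℝ := ∑ i : Fin (D + 2), (L.countP (Par i) : ℝ) with hX
  have hsumX : ∑ i : Fin (D + 2), ∑ j : Fin (D + 1), ((L.countP (Par i) : ℝ) +
      L.countP (Par (i.succAbove j))) = 2 * ((D : ℝ) + 1) * X := by
    have e1 : ∀ i : Fin (D + 2), ∑ j : Fin (D + 1), ((L.countP (Par i) : ℝ) +
        L.countP (Par (i.succAbove j))) = (D : ℝ) * L.countP (Par i) + X := by
      intro i
      rw [sum_add_distrib, sum_const, card_univ, Fintype.card_fin, nsmul_eq_mul]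
      have : X = (L.countP (Par i) : ℝ) + ∑ j : Fin (D + 1), (L.countP (Par (i.succAbove j)) : ℝ)
        := by rw [hX, Fin.sum_univ_succAbove _ i]
      rw [this]
      push_cast
      ring
    rw [sum_congr rfl (fun i _ => e1 i), sum_add_distrib, ← mul_sum, sum_const, card_univ,
      Fintype.card_fin, nsmul_eq_mul]
    push_cast
    ring
  have hXl : X + (L.countP (fun p => ∀ k : Fin (D + 2), ¬ Par k p) : ℝ) ≤ l := by
    have ha : ∑ i : Fin (D + 2), L.countP (Par i) ≤
        L.countP (fun p => ∃ k : Fin (D + 2), Par k p) :=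
      sum_countP_le univ (fun i => Par i) L _ (fun i _ p _ h => ⟨i, h⟩)
        (fun p hp i _ j _ hi hj => par_excl (by omega) (hL.1 p hp) hi hj)
    have hb' := Multiset.card_eq_countP_add_countP (fun p => ∃ k : Fin (D + 2), Par k p) L
    have hc' : L.countP (fun p => ¬ ∃ k : Fin (D + 2), Par k p) =
        L.countP (fun p => ∀ k : Fin (D + 2), ¬ Par k p) := by
      congr 1
      ext p
      push Not
      rfl
    rw [hc'] at hb'
    have : ∑ i : Fin (D + 2), L.countP (Par i) +
        L.countP (fun p => ∀ k : Fin (D + 2), ¬ Par k p) ≤ Multiset.card L := by omega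
    rw [hX, hl]
    exact_mod_cast this
  have hsumC : ∑ i : Fin (D + 2), ∑ j : Fin (D + 1), (L.countP (Cut i j) : ℝ) ≤
      2 * (L.countP (fun p => ∀ k : Fin (D + 2), ¬ Par k p) : ℝ) := by
    exact_mod_cast sum_cut hD L
  -- a good pair
  obtain ⟨i, j, hij⟩ : ∃ (i : Fin (D + 2)) (j : Fin (D + 1)),
      M * ((L.countP (Par i) : ℝ) + L.countP (Par (i.succAbove j))) +
        ((D : ℝ) + 1) * M * L.countP (Cut i j) ≤ 2 * M * l / ((D : ℝ) + 2) := by
    by_contra hcon
    push Not at hcon
    have h3 : ∑ i : Fin (D + 2), ∑ j : Fin (D + 1), (2 * M * l / ((D : ℝ) + 2)) <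
        ∑ i : Fin (D + 2), ∑ j : Fin (D + 1),
          (M * ((L.countP (Par i) : ℝ) + L.countP (Par (i.succAbove j))) +
            ((D : ℝ) + 1) * M * L.countP (Cut i j)) := by
      apply sum_lt_sum_of_nonempty univ_nonempty
      intro i _
      apply sum_lt_sum_of_nonempty univ_nonempty
      intro j _
      exact hcon i j
    have h4 : ∑ i : Fin (D + 2), ∑ j : Fin (D + 1),
          (M * ((L.countP (Par i) : ℝ) + L.countP (Par (i.succAbove j))) +
            ((D : ℝ) + 1) * M * L.countP (Cut i j)) =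
        M * ∑ i : Fin (D + 2), ∑ j : Fin (D + 1), ((L.countP (Par i) : ℝ) +
          L.countP (Par (i.succAbove j))) + ((D : ℝ) + 1) * M *
            ∑ i : Fin (D + 2), ∑ j : Fin (D + 1), (L.countP (Cut i j) : ℝ) := by
      rw [mul_sum, mul_sum, ← sum_add_distrib]
      apply sum_congr rfl
      intro i _
      rw [mul_sum, mul_sum, ← sum_add_distrib]
    rw [h4, hsumX] at h3
    simp only [sum_const, card_univ, Fintype.card_fin, nsmul_eq_mul] at h3
    push_cast at h3
    have h5 : ((D : ℝ) + 2) * (((D : ℝ) + 1) * (2 * M * l / ((D : ℝ) + 2))) =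
        2 * ((D : ℝ) + 1) * M * l := by field_simp
    rw [h5] at h3
    have h6 : ((D : ℝ) + 1) * M * ∑ i : Fin (D + 2), ∑ j : Fin (D + 1),
        (L.countP (Cut i j) : ℝ) ≤ ((D : ℝ) + 1) * M *
          (2 * (L.countP (fun p => ∀ k : Fin (D + 2), ¬ Par k p) : ℝ)) :=
      mul_le_mul_of_nonneg_left hsumC (by positivity)
    have h7 : 2 * ((D : ℝ) + 1) * M * (X +
        (L.countP (fun p => ∀ k : Fin (D + 2), ¬ Par k p) : ℝ)) ≤
          2 * ((D : ℝ) + 1) * M * l := mul_le_mul_of_nonneg_left hXl (by positivity)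
    linarith
  have hts := two_slice hD hS hSK hb0 hb hL i j
  rw [← hl] at hts
  set x : ℝ := (L.countP (Par i) : ℝ) with hx
  set x' : ℝ := (L.countP (Par (i.succAbove j)) : ℝ) with hx'
  set c : ℝ := (L.countP (Cut i j) : ℝ) with hc
  have hx0 : 0 ≤ x := by rw [hx]; positivity
  have hx0' : 0 ≤ x' := by rw [hx']; positivity
  have hc0 : 0 ≤ c := by rw [hc]; positivity
  have h3 : (n : ℝ) ≤ (x + x') * (1 / S) + c + (l - x - x' - c) * b := by
    have e : (S : ℝ) * ((x + x') * (1 / S) + c + (l - x - x' - c) * b) =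
        x + x' + S * c + S * ((l - x - x' - c) * b) := by field_simp
    have : (S : ℝ) * n ≤ (S : ℝ) * ((x + x') * (1 / S) + c + (l - x - x' - c) * b) := by
      rw [e]; exact hts
    exact le_of_mul_le_mul_left this hSr
  have h4 : (x + x') * (1 / S - b) ≤ (x + x') * M :=
    mul_le_mul_of_nonneg_left h1 (by positivity)
  have h5 : c * (1 - b) ≤ c * (((D : ℝ) + 1) * M) := mul_le_mul_of_nonneg_left h2 hc0
  have h6 : (n : ℝ) ≤ l * b + 2 * M * l / ((D : ℝ) + 2) := by
    nlinarith
  calc (n : ℝ) ≤ l * b + 2 * M * l / ((D : ℝ) + 2) := h6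
    _ = l * (b + 2 * M / ((D : ℝ) + 2)) := by ring
    _ ≤ l * B := mul_le_mul_of_nonneg_left hB hl0

end Pool.Agent.Helper23.CE
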